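import Mathlib

set_option autoImplicit false

namespace Pool.Agent.MP_739d9d_an

section
variable {N : Type*} [CStarAlgebra N] [PartialOrder N] [StarOrderedRing N]

lemma spectrum_pos_of_isUnit {P : N} (hP : 0 ≤ P) (hu : IsUnit P) :
    ∀ t ∈ spectrum ℝ P, 0 < t := by
  intro t ht
  have h0 : 0 ≤ t := spectrum_nonneg_of_nonneg hP ht
  rcases h0.lt_or_eq with h | h
  · exact h
  · exfalso
    rw [← h] at ht
    exact (spectrum.zero_mem_iff ℝ).1 ht hu

omit [PartialOrder N] [StarOrderedRing N] in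
lemma cfc_mul' {P : N} (f g : ℝ → ℝ) (hf : ContinuousOn f (spectrum ℝ P))
    (hg : ContinuousOn g (spectrum ℝ P)) :
    cfc f P * cfc g P = cfc (fun t => f t * g t) P := (cfc_mul f g P hf hg).symm

omit [PartialOrder N] [StarOrderedRing N] in
lemma cfc_mul_self {P : N} (hP : IsSelfAdjoint P) (f : ℝ → ℝ) (hf : ContinuousOn f (spectrum ℝ P)) :
    cfc f P * P = cfc (fun t => f t * t) P := by
  conv_lhs => rw [← cfc_id' ℝ P hP]
  rw [cfc_id' ℝ P hP]
  nth_rewrite 2 [← cfc_id' ℝ P hP]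
  exact cfc_mul' f _ hf (by fun_prop)

omit [PartialOrder N] [StarOrderedRing N] in
lemma self_mul_cfc {P : N} (hP : IsSelfAdjoint P) (f : ℝ → ℝ) (hf : ContinuousOn f (spectrum ℝ P)) :
    P * cfc f P = cfc (fun t => t * f t) P := by
  nth_rewrite 1 [← cfc_id' ℝ P hP]
  exact cfc_mul' _ f (by fun_prop) hf

omit [PartialOrder N] [StarOrderedRing N] in
lemma star_cfc_real (f : ℝ → ℝ) (P : N) : star (cfc f P) = cfc f P :=
  (IsSelfAdjoint.cfc (f := f) (a := P))

omit [PartialOrder N] [StarOrderedRing N] in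
lemma norm_one_le : ‖(1 : N)‖ ≤ 1 := by
  rcases subsingleton_or_nontrivial N with h | h
  · rw [Subsingleton.elim (1 : N) 0, norm_zero]; exact zero_le_one
  · exact CStarRing.norm_one.le

/-- Uniform control of inverses when units are dense. -/
lemma exists_unit_near (hd : Dense {b : N | IsUnit b}) (T : N) {η : ℝ} (hη : 0 < η) :
    ∃ W W' : N, W * W' = 1 ∧ W' * W = 1 ∧ ‖W - T‖ ≤ 2 * η ∧ ‖W'‖ ≤ 1 / η := by
  obtain ⟨W0, hW0, hu⟩ := Metric.dense_iff.1 hd T η hη
  have hu : IsUnit W0 := hu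
  have hW0' : ‖W0 - T‖ < η := by rw [← dist_eq_norm]; exact hW0
  set P : N := star W0 * W0 with hPdef
  have hP0 : 0 ≤ P := star_mul_self_nonneg W0
  have hPu : IsUnit P := (IsUnit.star hu).mul hu
  have hsp := spectrum_pos_of_isUnit hP0 hPu
  have hsa : IsSelfAdjoint P := hP0.isSelfAdjoint
  have hsq : ∀ t ∈ spectrum ℝ P, Real.sqrt t ≠ 0 := fun t ht =>
    (Real.sqrt_pos.2 (hsp t ht)).ne'
  have hcs : ContinuousOn (fun t : ℝ => Real.sqrt t) (spectrum ℝ P) := by fun_prop
  have hc1 : ContinuousOn (fun t : ℝ => (Real.sqrt t)⁻¹) (spectrum ℝ P) := hcs.inv₀ hsq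
  have hc2 : ContinuousOn (fun t : ℝ => (Real.sqrt t * (Real.sqrt t + η))⁻¹) (spectrum ℝ P) := by
    apply ContinuousOn.inv₀ (by fun_prop)
    intro t ht
    have := Real.sqrt_pos.2 (hsp t ht)
    positivity
  have hc1' : ContinuousOn (fun t : ℝ => (Real.sqrt t)⁻¹ * t) (spectrum ℝ P) :=
    hc1.mul continuousOn_id
  have hc2' : ContinuousOn (fun t : ℝ => (Real.sqrt t * (Real.sqrt t + η))⁻¹ * t)
    (spectrum ℝ P) := hc2.mul continuousOn_id
  have hc3 : ContinuousOn (fun t : ℝ => 1 + η * (Real.sqrt t)⁻¹) (spectrum ℝ P) :=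
    continuousOn_const.add (continuousOn_const.mul hc1)
  set s : N := cfc (fun t : ℝ => (Real.sqrt t)⁻¹) P with hs
  set k : N := cfc (fun t : ℝ => (Real.sqrt t * (Real.sqrt t + η))⁻¹) P with hk
  have hssa : star s = s := star_cfc_real _ _
  have hksa : star k = k := star_cfc_real _ _
  -- s P s = 1
  have hsPs : s * P * s = 1 := by
    rw [hs, cfc_mul_self hsa _ hc1, cfc_mul' _ _ hc1' hc1,
      ← cfc_one ℝ P]
    apply cfc_congr
    intro t ht
    have h1 := Real.sqrt_pos.2 (hsp t ht)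
    have h2 : Real.sqrt t * Real.sqrt t = t := Real.mul_self_sqrt (hsp t ht).le
    simp only [Pi.one_apply]
    field_simp
    nlinarith
  -- k P k = (√t + η)^{-2}
  have hkP : k * P = cfc (fun t : ℝ => (Real.sqrt t * (Real.sqrt t + η))⁻¹ * t) P := by
    rw [hk, cfc_mul_self hsa _ hc2]
  have hkPk : k * P * k = cfc (fun t : ℝ => ((Real.sqrt t + η) ^ 2)⁻¹) P := by
    rw [hkP, hk, cfc_mul' _ _ hc2' hc2]
    apply cfc_congr
    intro t ht
    have h1 := Real.sqrt_pos.2 (hsp t ht)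
    have h2 : Real.sqrt t * Real.sqrt t = t := Real.mul_self_sqrt (hsp t ht).le
    simp only
    have h3 : Real.sqrt t + η ≠ 0 := by positivity
    field_simp
    nlinarith
  -- k * P * (1 + η s) = 1
  have hkPh : k * P * (1 + (algebraMap ℝ N η) * s) = 1 := by
    have e1 : (1 + (algebraMap ℝ N η) * s) = cfc (fun t : ℝ => 1 + η * (Real.sqrt t)⁻¹) P := by
      rw [cfc_const_add (1 : ℝ) (fun t => η * (Real.sqrt t)⁻¹) P (by fun_prop),
        cfc_const_mul η (fun t => (Real.sqrt t)⁻¹) P hc1, map_one, Algebra.smul_def]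
    rw [e1, hkP, cfc_mul' _ _ hc2' hc3, ← cfc_one ℝ P]
    apply cfc_congr
    intro t ht
    have h1 := Real.sqrt_pos.2 (hsp t ht)
    have h2 : Real.sqrt t * Real.sqrt t = t := Real.mul_self_sqrt (hsp t ht).le
    simp only [Pi.one_apply]
    have h3 : Real.sqrt t + η ≠ 0 := by positivity
    field_simp
    nlinarith
  have hl : k * star W0 * (W0 * (1 + (algebraMap ℝ N η) * s)) = 1 := by
    rw [hPdef] at hkPh
    simpa only [mul_assoc] using hkPh
  refine ⟨W0 * (1 + (algebraMap ℝ N η) * s), k * star W0, ?_, hl, ?_, ?_⟩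
  · -- right inverse from left inverse and unit
    have hku : IsUnit k := by
      rw [hk, isUnit_cfc_iff _ P hc2]
      intro t ht
      have := Real.sqrt_pos.2 (hsp t ht)
      positivity
    have hu2 : IsUnit (k * star W0) := hku.mul hu.star
    obtain ⟨v, hv⟩ := hu2
    have : W0 * (1 + (algebraMap ℝ N η) * s) = ↑v⁻¹ := by
      rw [← hv] at hl
      calc _ = ↑v⁻¹ * (↑v * (W0 * (1 + (algebraMap ℝ N η) * s))) := by
              rw [← mul_assoc, v.inv_mul, one_mul]
        _ = ↑v⁻¹ := by rw [hl, mul_one]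
    rw [this, ← hv, v.inv_mul]
  · have h1 : ‖W0 * s‖ ≤ 1 := by
      have : ‖W0 * s‖ * ‖W0 * s‖ = ‖s * P * s‖ := by
        rw [← CStarRing.norm_star_mul_self, star_mul, hssa, hPdef]
        simp only [mul_assoc]
      rw [hsPs] at this
      have h2 : ‖(1 : N)‖ ≤ 1 := norm_one_le
      nlinarith [norm_nonneg (W0 * s)]
    have h2 : W0 * (1 + (algebraMap ℝ N η) * s) - T = (W0 - T) + η • (W0 * s) := by
      rw [Algebra.smul_def, mul_add, mul_one, ← mul_assoc W0, ← Algebra.commutes η W0, mul_assoc]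
      abel
    rw [h2]
    calc ‖(W0 - T) + η • (W0 * s)‖ ≤ ‖W0 - T‖ + ‖η • (W0 * s)‖ := norm_add_le _ _
      _ ≤ η + η * 1 := by
          gcongr
          rw [norm_smul, Real.norm_of_nonneg hη.le]
          gcongr
      _ = 2 * η := by ring
  · have h1 : ‖k * star W0‖ * ‖k * star W0‖ = ‖k * P * k‖ := by
      rw [← CStarRing.norm_self_mul_star, star_mul, star_star, hksa, hPdef]
      simp only [mul_assoc]
    rw [hkPk] at h1
    have h2 : ‖cfc (fun t : ℝ => ((Real.sqrt t + η) ^ 2)⁻¹) P‖ ≤ (1 / η) ^ 2 := by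
      apply norm_cfc_le (by positivity)
      intro t ht
      have h1 := Real.sqrt_pos.2 (hsp t ht)
      rw [Real.norm_of_nonneg (by positivity), one_div, inv_pow]
      apply inv_anti₀ (by positivity)
      nlinarith
    rw [← h1] at h2
    have h3 : 0 ≤ 1 / η := by positivity
    nlinarith [norm_nonneg (k * star W0)]

end

end Pool.Agent.MP_739d9d_an
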