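import Mathlib
import Pool.Agent.MP_739d9d_an.Basic

set_option autoImplicit false

open Filter Topology

namespace Pool.Agent.MP_739d9d_an

/-- Abstract description of the crossed product of `A` by the finite group `G`. -/
structure CP {A G : Type*} [CStarAlgebra A] [Group G] [Fintype G] (α : G → (A ≃⋆ₐ[ℂ] A))
    (B : Type*) [CStarAlgebra B] where
  ι : A →⋆ₐ[ℂ] B
  u : G → B
  u_one : u 1 = 1
  u_mul : ∀ g h, u g * u h = u (g * h)
  u_star : ∀ g, star (u g) = u g⁻¹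
  u_comm : ∀ g a, u g * ι a = ι (α g a) * u g
  co : B → G → A
  co_spec : ∀ b, ∑ g, ι (co b g) * u g = b
  co_uniq : ∀ a : G → A, co (∑ g, ι (a g) * u g) = a

namespace CP

section
variable {A G : Type*} [CStarAlgebra A] [Group G] [Fintype G] {α : G → (A ≃⋆ₐ[ℂ] A)}
    {B : Type*} [CStarAlgebra B] (cp : CP α B)

lemma u_inv_mul (g : G) : cp.u g⁻¹ * cp.u g = 1 := by rw [cp.u_mul]; simp [cp.u_one]
lemma u_mul_inv (g : G) : cp.u g * cp.u g⁻¹ = 1 := by rw [cp.u_mul]; simp [cp.u_one]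

lemma norm_u_le (g : G) : ‖cp.u g‖ ≤ 1 := by
  have h : ‖cp.u g‖ * ‖cp.u g‖ = ‖(1 : B)‖ := by
    rw [← CStarRing.norm_star_mul_self, cp.u_star, cp.u_inv_mul]
  have := norm_one_le (N := B)
  nlinarith [norm_nonneg (cp.u g)]

lemma norm_ι_le (a : A) : ‖cp.ι a‖ ≤ ‖a‖ := NonUnitalStarAlgHom.norm_apply_le cp.ι a

lemma norm_conj_le (g h : G) (x : B) : ‖cp.u g * x * cp.u h‖ ≤ ‖x‖ := by
  calc ‖cp.u g * x * cp.u h‖ ≤ ‖cp.u g‖ * ‖x‖ * ‖cp.u h‖ := by
        refine (norm_mul_le _ _).trans ?_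
        gcongr
        exact norm_mul_le _ _
    _ ≤ 1 * ‖x‖ * 1 := by
        gcongr
        · exact cp.norm_u_le g
        · exact cp.norm_u_le h
    _ = ‖x‖ := by ring

lemma alpha_norm (g : G) (a : A) : ‖α g a‖ ≤ ‖a‖ := NonUnitalStarAlgHom.norm_apply_le (α g) a

/-- compression map from matrices to the crossed product -/
noncomputable def Psi (H : A) (X : CStarMatrix G G A) : B :=
  ∑ g, ∑ h, cp.u g * cp.ι (H * X g h * H) * cp.u h⁻¹

lemma Psi_add (H : A) (X Y : CStarMatrix G G A) : cp.Psi H (X + Y) = cp.Psi H X + cp.Psi H Y := by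
  unfold Psi
  rw [← Finset.sum_add_distrib]
  refine Finset.sum_congr rfl fun g _ => ?_
  rw [← Finset.sum_add_distrib]
  refine Finset.sum_congr rfl fun h _ => ?_
  rw [CStarMatrix.add_apply, mul_add, add_mul, map_add, mul_add, add_mul]

lemma Psi_zero (H : A) : cp.Psi H (0 : CStarMatrix G G A) = 0 := by
  unfold Psi
  simp

lemma Psi_neg (H : A) (X : CStarMatrix G G A) : cp.Psi H (-X) = - cp.Psi H X := by
  have := cp.Psi_add H X (-X)
  rw [add_neg_cancel, Psi_zero] at this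
  exact (neg_eq_of_add_eq_zero_right this.symm).symm

lemma Psi_sub (H : A) (X Y : CStarMatrix G G A) : cp.Psi H (X - Y) = cp.Psi H X - cp.Psi H Y := by
  rw [sub_eq_add_neg, Psi_add, Psi_neg, sub_eq_add_neg]

variable [PartialOrder A] [StarOrderedRing A]

lemma norm_Psi_le {H : A} (hH : ‖H‖ ≤ 1) (X : CStarMatrix G G A) :
    ‖cp.Psi H X‖ ≤ (Fintype.card G) ^ 2 * ‖X‖ := by
  unfold Psi
  refine (norm_sum_le _ _).trans ?_
  have hx : ∀ g h, ‖cp.u g * cp.ι (H * X g h * H) * cp.u h⁻¹‖ ≤ ‖X‖ := by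
    intro g h
    refine (cp.norm_conj_le _ _ _).trans ((cp.norm_ι_le _).trans ?_)
    calc ‖H * X g h * H‖ ≤ ‖H‖ * ‖X g h‖ * ‖H‖ := by
          refine (norm_mul_le _ _).trans ?_
          gcongr
          exact norm_mul_le _ _
      _ ≤ 1 * ‖X‖ * 1 := by
          gcongr
          exact CStarMatrix.norm_entry_le_norm
      _ = ‖X‖ := by ring
  calc ∑ g : G, ‖∑ h : G, cp.u g * cp.ι (H * X g h * H) * cp.u h⁻¹‖
      ≤ ∑ g : G, ∑ h : G, ‖X‖ := by
        gcongr with g _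
        refine (norm_sum_le _ _).trans ?_
        gcongr with h _
        exact hx g h
    _ = (Fintype.card G) ^ 2 * ‖X‖ := by
        simp [Finset.sum_const, Finset.card_univ]
        ring

end

end CP

end Pool.Agent.MP_739d9d_an
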