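import Mathlib
import Pool.Agent.MP_739d9d_an.CP

set_option autoImplicit false
set_option linter.unusedSectionVars false

open Filter Topology

namespace Pool.Agent.MP_739d9d_an

section diag
variable {A G : Type*} [CStarAlgebra A] [PartialOrder A] [StarOrderedRing A] [Fintype G]
  [DecidableEq G]

/-- The diagonal embedding of `A` in matrices over `A`. -/
noncomputable def dg (G : Type*) [Fintype G] [DecidableEq G] : A →⋆ₐ[ℂ] CStarMatrix G G A where
  toFun a := CStarMatrix.ofMatrix (Matrix.diagonal fun _ => a)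
  map_one' := by
    change (Matrix.diagonal (fun _ => (1 : A)) : Matrix G G A) = 1
    exact Matrix.diagonal_one
  map_mul' a b := by
    ext i j
    simp [Matrix.diagonal_apply, CStarMatrix.mul_apply]
  map_zero' := by
    ext i j; simp
  map_add' a b := by
    ext i j
    simp only [Matrix.diagonal_apply, CStarMatrix.ofMatrix_apply, CStarMatrix.add_apply]
    split_ifs <;> simp
  commutes' r := by
    ext i j
    simp [Matrix.diagonal_apply, CStarMatrix.algebraMap_apply]
  map_star' a := by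
    ext i j
    simp only [Matrix.diagonal_apply, CStarMatrix.ofMatrix_apply, CStarMatrix.star_apply]
    by_cases h : i = j
    · simp [h]
    · have h' : ¬ (j = i) := fun e => h e.symm
      simp [h, h']

omit [PartialOrder A] [StarOrderedRing A] in
lemma dg_apply (a : A) (i j : G) : (dg G a : CStarMatrix G G A) i j = if i = j then a else 0 := by
  simp [dg, Matrix.diagonal_apply]

lemma norm_dg_le (a : A) : ‖(dg G a : CStarMatrix G G A)‖ ≤ ‖a‖ :=
  NonUnitalStarAlgHom.norm_apply_le (dg G) a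

end diag

namespace CP

section
variable {A G : Type*} [CStarAlgebra A] [PartialOrder A] [StarOrderedRing A]
    [Group G] [Fintype G] [DecidableEq G] {α : G → (A ≃⋆ₐ[ℂ] A)}
    {B : Type*} [CStarAlgebra B] (cp : CP α B)

/-- The basic off-diagonal estimate. -/
lemma norm_term_le {H : A} (hH : ‖H‖ ≤ 1) (X Y : CStarMatrix G G A) (g h k l : G) {δ : ℝ}
    (hδ : ‖H * α (h⁻¹ * k) H‖ ≤ δ) :
    ‖cp.u g * cp.ι (H * X g h * H) * cp.u h⁻¹ * (cp.u k * cp.ι (H * Y k l * H) * cp.u l⁻¹)‖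
      ≤ ‖X‖ * ‖Y‖ * δ := by
  have e : cp.u g * cp.ι (H * X g h * H) * cp.u h⁻¹ * (cp.u k * cp.ι (H * Y k l * H) * cp.u l⁻¹)
      = cp.u g * (cp.ι (H * X g h * (H * α (h⁻¹ * k) H)) * (cp.u (h⁻¹ * k) * cp.ι (Y k l * H)))
        * cp.u l⁻¹ := by
    have h1 : cp.ι (H * X g h * H) * cp.u h⁻¹ * (cp.u k * cp.ι (H * Y k l * H)) =
        cp.ι (H * X g h * (H * α (h⁻¹ * k) H)) * (cp.u (h⁻¹ * k) * cp.ι (Y k l * H)) := by
      calc cp.ι (H * X g h * H) * cp.u h⁻¹ * (cp.u k * cp.ι (H * Y k l * H))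
          = cp.ι (H * X g h * H) * ((cp.u h⁻¹ * cp.u k) * cp.ι H) * cp.ι (Y k l * H) := by
            simp only [map_mul, mul_assoc]
        _ = cp.ι (H * X g h * H) * (cp.ι (α (h⁻¹ * k) H) * cp.u (h⁻¹ * k)) * cp.ι (Y k l * H) := by
            rw [cp.u_mul, cp.u_comm]
        _ = _ := by simp only [map_mul, mul_assoc]
    calc _ = cp.u g * (cp.ι (H * X g h * H) * cp.u h⁻¹ * (cp.u k * cp.ι (H * Y k l * H)))
          * cp.u l⁻¹ := by simp only [mul_assoc]
      _ = _ := by rw [h1]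
  rw [e]
  refine (cp.norm_conj_le _ _ _).trans ?_
  refine (norm_mul_le _ _).trans ?_
  have h1 : ‖cp.ι (H * X g h * (H * α (h⁻¹ * k) H))‖ ≤ ‖X‖ * δ := by
    refine (cp.norm_ι_le _).trans ((norm_mul_le _ _).trans ?_)
    have : ‖H * X g h‖ ≤ ‖X‖ := by
      calc ‖H * X g h‖ ≤ ‖H‖ * ‖X g h‖ := norm_mul_le _ _
        _ ≤ 1 * ‖X‖ := by gcongr; exact CStarMatrix.norm_entry_le_norm
        _ = ‖X‖ := one_mul _
    gcongr
  have h2 : ‖cp.u (h⁻¹ * k) * cp.ι (Y k l * H)‖ ≤ ‖Y‖ := by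
    calc ‖cp.u (h⁻¹ * k) * cp.ι (Y k l * H)‖ ≤ ‖cp.u (h⁻¹ * k)‖ * (‖Y k l‖ * ‖H‖) := by
          refine (norm_mul_le _ _).trans ?_
          gcongr
          exact (cp.norm_ι_le _).trans (norm_mul_le _ _)
      _ ≤ 1 * (‖Y‖ * 1) := by
          gcongr
          · exact cp.norm_u_le _
          · exact CStarMatrix.norm_entry_le_norm
      _ = ‖Y‖ := by ring
  have hδ0 : 0 ≤ δ := (norm_nonneg _).trans hδ
  calc _ ≤ (‖X‖ * δ) * ‖Y‖ := by gcongr
    _ = _ := by ring

lemma term_diag {H : A} (X Y : CStarMatrix G G A) (g h l : G) :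
    cp.u g * cp.ι (H * X g h * H) * cp.u h⁻¹ * (cp.u h * cp.ι (H * Y h l * H) * cp.u l⁻¹)
      = cp.u g * cp.ι (H * (X g h * (H * H) * Y h l) * H) * cp.u l⁻¹ := by
  calc _ = cp.u g * cp.ι (H * X g h * H) * (cp.u h⁻¹ * cp.u h) * cp.ι (H * Y h l * H) * cp.u l⁻¹ := by
        simp only [mul_assoc]
    _ = _ := by
        rw [cp.u_inv_mul, mul_one]
        simp only [map_mul, mul_assoc]

lemma norm_Psi_mul_sub_le {H : A} (hH : ‖H‖ ≤ 1)
    (X Y : CStarMatrix G G A) {δ : ℝ} (hδ0 : 0 ≤ δ)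
    (hδ : ∀ x : G, x ≠ 1 → ‖H * α x H‖ ≤ δ) :
    ‖cp.Psi H X * cp.Psi H Y - cp.Psi H (X * dg G (H * H) * Y)‖ ≤
      (Fintype.card G) ^ 4 * (‖X‖ * ‖Y‖ * δ) := by
  set T : G → G → G → G → B := fun g h k l =>
    cp.u g * cp.ι (H * X g h * H) * cp.u h⁻¹ * (cp.u k * cp.ι (H * Y k l * H) * cp.u l⁻¹) with hT
  have e1 : cp.Psi H X * cp.Psi H Y = ∑ g, ∑ h, ∑ k, ∑ l, T g h k l := by
    unfold Psi
    rw [Finset.sum_mul]
    refine Finset.sum_congr rfl fun g _ => ?_
    rw [Finset.sum_mul]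
    refine Finset.sum_congr rfl fun h _ => ?_
    rw [Finset.mul_sum]
    refine Finset.sum_congr rfl fun k _ => ?_
    rw [Finset.mul_sum]
  have e2 : cp.Psi H (X * dg G (H * H) * Y) = ∑ g, ∑ h, ∑ l, T g h h l := by
    unfold Psi
    refine Finset.sum_congr rfl fun g _ => ?_
    rw [Finset.sum_comm]
    refine Finset.sum_congr rfl fun l _ => ?_
    have e3 : (X * dg G (H * H) * Y) g l = ∑ h, X g h * (H * H) * Y h l := by
      rw [CStarMatrix.mul_apply]
      refine Finset.sum_congr rfl fun h _ => ?_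
      congr 1
      rw [CStarMatrix.mul_apply]
      simp [dg_apply]
    rw [e3, Finset.mul_sum, Finset.sum_mul, map_sum, Finset.mul_sum, Finset.sum_mul]
    refine Finset.sum_congr rfl fun h _ => ?_
    rw [hT]
    simp only
    rw [cp.term_diag]
  have e4 : cp.Psi H X * cp.Psi H Y - cp.Psi H (X * dg G (H * H) * Y) =
      ∑ g, ∑ h, ∑ k, ∑ l, (if h = k then 0 else T g h k l) := by
    rw [e1, e2, ← Finset.sum_sub_distrib]
    refine Finset.sum_congr rfl fun g _ => ?_
    rw [← Finset.sum_sub_distrib]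
    refine Finset.sum_congr rfl fun h _ => ?_
    have : ∑ l, T g h h l = ∑ k, ∑ l, (if h = k then T g h k l else 0) := by
      rw [Finset.sum_comm]
      refine Finset.sum_congr rfl fun l _ => ?_
      simp
    rw [this, ← Finset.sum_sub_distrib]
    refine Finset.sum_congr rfl fun k _ => ?_
    rw [← Finset.sum_sub_distrib]
    refine Finset.sum_congr rfl fun l _ => ?_
    split_ifs <;> simp
  rw [e4]
  have hb : ∀ g h k l, ‖(if h = k then (0 : B) else T g h k l)‖ ≤ ‖X‖ * ‖Y‖ * δ := by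
    intro g h k l
    split_ifs with hk
    · rw [norm_zero]; positivity
    · apply cp.norm_term_le hH
      apply hδ
      intro h1
      apply hk
      rw [inv_mul_eq_one] at h1
      exact h1
  calc _ ≤ ∑ g : G, ∑ h : G, ∑ k : G, ∑ l : G, (‖X‖ * ‖Y‖ * δ) := by
        refine (norm_sum_le _ _).trans ?_
        gcongr with g _
        refine (norm_sum_le _ _).trans ?_
        gcongr with h _
        refine (norm_sum_le _ _).trans ?_
        gcongr with k _
        refine (norm_sum_le _ _).trans ?_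
        gcongr with l _
        exact hb g h k l
    _ = _ := by
        simp [Finset.sum_const, Finset.card_univ]
        ring

end

end CP

end Pool.Agent.MP_739d9d_an
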