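import Mathlib

set_option autoImplicit false

namespace Pool.Agent.MP_739d9d_an

open Matrix

section
variable {A : Type*} [NormedRing A]

/-- Entrywise density of units for square matrices indexed by `n`. -/
def MatSR (A : Type*) [NormedRing A] (n : Type*) [Fintype n] [DecidableEq n] : Prop :=
  ∀ (M : Matrix n n A) (ε : ℝ), 0 < ε → ∃ M' : Matrix n n A, IsUnit M' ∧ ∀ i j, ‖M i j - M' i j‖ < ε

lemma isUnit_fromBlocks_aux {m n : Type*} [Fintype m] [DecidableEq m] [Fintype n] [DecidableEq n]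
    (a : Matrix m m A) (a' : Matrix m m A) (b : Matrix m n A) (c : Matrix n m A) (d : Matrix n n A)
    (h1 : a * a' = 1) (h2 : a' * a = 1) (hs : IsUnit (d - c * a' * b)) :
    IsUnit (fromBlocks a b c d) := by
  obtain ⟨s, hs⟩ := hs
  have e1 : (↑s : Matrix n n A) * (↑s⁻¹ : Matrix n n A) = 1 := s.mul_inv
  have e2 : (↑s⁻¹ : Matrix n n A) * (↑s : Matrix n n A) = 1 := s.inv_mul
  have hd : d = (↑s : Matrix n n A) + c * a' * b := by rw [hs]; abel
  have hfac : fromBlocks a b c d = fromBlocks 1 0 (c * a') 1 * fromBlocks a 0 0 (↑s : Matrix n n A) *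
      fromBlocks 1 (a' * b) 0 1 := by
    simp only [fromBlocks_multiply]
    congr 1
    · simp
    · simp only [Matrix.one_mul, Matrix.mul_one, Matrix.zero_mul, Matrix.mul_zero, add_zero,
        zero_add]
      rw [← Matrix.mul_assoc, h1, Matrix.one_mul]
    · simp only [Matrix.one_mul, Matrix.mul_one, Matrix.zero_mul, Matrix.mul_zero, add_zero,
        zero_add]
      rw [Matrix.mul_assoc, h2, Matrix.mul_one]
    · simp only [Matrix.one_mul, Matrix.mul_one, Matrix.zero_mul, Matrix.mul_zero, add_zero,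
        zero_add]
      rw [Matrix.mul_assoc c a' a, h2, Matrix.mul_one, hd, ← Matrix.mul_assoc, add_comm]
  rw [hfac]
  refine IsUnit.mul (IsUnit.mul ?_ ?_) ?_
  · refine ⟨⟨fromBlocks 1 0 (c * a') 1, fromBlocks 1 0 (-(c * a')) 1, ?_, ?_⟩, rfl⟩ <;>
      simp [fromBlocks_multiply]
  · refine ⟨⟨fromBlocks a 0 0 (↑s : Matrix n n A), fromBlocks a' 0 0 (↑s⁻¹ : Matrix n n A), ?_, ?_⟩,
      rfl⟩ <;>
      simp [fromBlocks_multiply, h1, h2, e1, e2]
  · refine ⟨⟨fromBlocks 1 (a' * b) 0 1, fromBlocks 1 (-(a' * b)) 0 1, ?_, ?_⟩, rfl⟩ <;>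
      simp [fromBlocks_multiply]

lemma MatSR.sum {m n : Type*} [Fintype m] [DecidableEq m] [Fintype n] [DecidableEq n]
    (hm : MatSR A m) (hn : MatSR A n) : MatSR A (m ⊕ n) := by
  intro M ε hε
  obtain ⟨a, ha, hae⟩ := hm M.toBlocks₁₁ ε hε
  obtain ⟨ua, rfl⟩ := ha
  set a' : Matrix m m A := ↑ua⁻¹
  obtain ⟨s, hsu, hse⟩ := hn (M.toBlocks₂₂ - M.toBlocks₂₁ * a' * M.toBlocks₁₂) ε hε
  refine ⟨fromBlocks ↑ua M.toBlocks₁₂ M.toBlocks₂₁ (s + M.toBlocks₂₁ * a' * M.toBlocks₁₂),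
    isUnit_fromBlocks_aux _ a' _ _ _ ua.mul_inv ua.inv_mul (by simpa using hsu), ?_⟩
  rintro (i | i) (j | j)
  · simpa [toBlocks₁₁] using hae i j
  · simpa [toBlocks₁₂] using hε
  · simpa [toBlocks₂₁] using hε
  · have := hse i j
    simp only [fromBlocks_apply₂₂]
    have h2 : M (Sum.inr i) (Sum.inr j) - (s + M.toBlocks₂₁ * a' * M.toBlocks₁₂) i j =
        (M.toBlocks₂₂ - M.toBlocks₂₁ * a' * M.toBlocks₁₂) i j - s i j := by
      simp only [Matrix.add_apply, Matrix.sub_apply, toBlocks₂₂, Matrix.of_apply]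
      abel
    rw [h2]; exact this

lemma MatSR.equiv {m n : Type*} [Fintype m] [DecidableEq m] [Fintype n] [DecidableEq n]
    (e : m ≃ n) (hm : MatSR A m) : MatSR A n := by
  intro M ε hε
  obtain ⟨a, ha, hae⟩ := hm (Matrix.reindex e.symm e.symm M) ε hε
  refine ⟨Matrix.reindex e e a, ?_, ?_⟩
  · obtain ⟨u, rfl⟩ := ha
    refine ⟨⟨Matrix.reindex e e (↑u : Matrix m m A), Matrix.reindex e e (↑u⁻¹ : Matrix m m A), ?_, ?_⟩, rfl⟩
    · simp only [Matrix.reindex_apply, Matrix.submatrix_mul_equiv, u.mul_inv]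
      simp
    · simp only [Matrix.reindex_apply, Matrix.submatrix_mul_equiv, u.inv_mul]
      simp
  · intro i j
    have := hae (e.symm i) (e.symm j)
    simpa using this

lemma MatSR.unit (h : Dense {b : A | IsUnit b}) : MatSR A Unit := by
  intro M ε hε
  obtain ⟨b, hb, hbe⟩ := Metric.dense_iff.1 h (M () ()) ε hε
  obtain ⟨u, hu⟩ : IsUnit b := hbe
  refine ⟨Matrix.of fun _ _ => b, ⟨⟨Matrix.of fun _ _ => ↑u, Matrix.of fun _ _ => ↑u⁻¹, ?_, ?_⟩, ?_⟩, ?_⟩
  · ext i j; simp [Matrix.mul_apply]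
  · ext i j; simp [Matrix.mul_apply]
  · ext i j; simp [hu]
  · intro i j
    rw [← dist_eq_norm, dist_comm]
    simpa using hb

lemma matSR_fin (h : Dense {b : A | IsUnit b}) (n : ℕ) : MatSR A (Fin n) := by
  induction n with
  | zero =>
    intro M ε hε
    refine ⟨1, isUnit_one, ?_⟩
    intro i; exact i.elim0
  | succ n ih =>
    have e : Fin n ⊕ Unit ≃ Fin (n + 1) :=
      (Equiv.optionEquivSumPUnit (Fin n)).symm.trans (finSuccEquiv n).symm
    exact (MatSR.sum ih (MatSR.unit h)).equiv e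

theorem matSR_of_dense (h : Dense {b : A | IsUnit b}) (n : Type*) [Fintype n] [DecidableEq n] :
    MatSR A n :=
  (matSR_fin h (Fintype.card n)).equiv (Fintype.equivFin n).symm

end

end Pool.Agent.MP_739d9d_an
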