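import Mathlib
import Pool.Agent.MP_739d9d_an.Basic

set_option autoImplicit false
set_option linter.unusedSectionVars false

open Filter Topology

namespace Pool.Agent.MP_739d9d_an

section
variable {N : Type*} [CStarAlgebra N] [PartialOrder N] [StarOrderedRing N]

/-- norm of an orthogonal sum of self-adjoint elements -/
lemma norm_orth_sum_le {G : Type*} [Fintype G] [DecidableEq G] (y : G → N)
    (hsa : ∀ g, IsSelfAdjoint (y g)) (ho : ∀ g h, g ≠ h → y g * y h = 0) {M : ℝ} (hM0 : 0 ≤ M)
    (hM : ∀ g, ‖y g‖ ≤ M) : ‖∑ g, y g‖ ≤ M := by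
  set s := ∑ g, y g with hs
  have hssa : IsSelfAdjoint s := by
    rw [hs, isSelfAdjoint_iff, star_sum]
    exact Finset.sum_congr rfl fun g _ => hsa g
  have hpow : ∀ k : ℕ, s ^ (k + 1) = ∑ g, y g ^ (k + 1) := by
    intro k
    induction k with
    | zero => simp [hs]
    | succ k ih =>
      rw [pow_succ, ih, hs, Finset.sum_mul]
      refine Finset.sum_congr rfl fun g _ => ?_
      rw [Finset.mul_sum, Finset.sum_eq_single g]
      · rw [← pow_succ]
      · intro h _ hh
        rw [pow_succ, mul_assoc, ho g h (Ne.symm hh), mul_zero]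
      · intro h; exact absurd (Finset.mem_univ _) h
  by_contra hlt
  push Not at hlt
  have hspos : 0 < ‖s‖ := hM0.trans_lt hlt
  set n : ℝ := (Fintype.card G : ℝ) with hn
  have hbound : ∀ j : ℕ, ‖s‖ ^ (2 ^ j) ≤ n * M ^ (2 ^ j) := by
    intro j
    have h1 : ‖s ^ 2 ^ j‖ = ‖s‖ ^ 2 ^ j := hssa.norm_pow_two_pow j
    have h2 : 2 ^ j = (2 ^ j - 1) + 1 := (Nat.succ_pred_eq_of_pos (by positivity)).symm
    rw [← h1, h2, hpow]
    calc ‖∑ g, y g ^ (2 ^ j - 1 + 1)‖ ≤ ∑ g : G, ‖y g ^ (2 ^ j - 1 + 1)‖ := norm_sum_le _ _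
      _ ≤ ∑ g : G, M ^ (2 ^ j - 1 + 1) := by
          gcongr with g _
          refine (norm_pow_le' _ (Nat.succ_pos _)).trans ?_
          gcongr
          exact hM g
      _ = n * M ^ (2 ^ j - 1 + 1) := by simp [hn]
  rcases hM0.eq_or_lt with h0 | h0
  · have := hbound 0
    rw [← h0] at this
    simp at this
    exact (norm_pos_iff.1 hspos) this
  · have hr : 1 < ‖s‖ / M := by rw [one_lt_div h0]; exact hlt
    have ht : Tendsto (fun j : ℕ => (‖s‖ / M) ^ (2 ^ j)) atTop atTop :=
      (tendsto_pow_atTop_atTop_of_one_lt hr).comp (tendsto_pow_atTop_atTop_of_one_lt one_lt_two)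
    obtain ⟨j, hj⟩ := (ht.eventually_gt_atTop n).exists
    have h3 := hbound j
    have h4 : (‖s‖ / M) ^ (2 ^ j) ≤ n := by
      rw [div_pow, div_le_iff₀ (by positivity)]
      exact h3
    linarith

lemma mul_eq_zero_of_conj {q c : N} (hq : 0 ≤ q) (h : star c * q * c = 0) : q * c = 0 := by
  obtain ⟨s, hs⟩ := CStarAlgebra.nonneg_iff_eq_star_mul_self.1 hq
  have h1 : s * c = 0 := by
    rw [← norm_eq_zero, ← sq_eq_zero_iff, sq, ← CStarRing.norm_star_mul_self, star_mul]
    have : star c * star s * (s * c) = star c * q * c := by rw [hs]; simp only [mul_assoc]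
    rw [this, h, norm_zero]
  rw [hs, mul_assoc, h1, mul_zero]

/-- The cut-off functions. -/
noncomputable def cut (a : ℝ) (t : ℝ) : ℝ := min 1 (max 0 ((t - a) / a))
noncomputable def cutc (a : ℝ) (t : ℝ) : ℝ := max 0 (1 - t / a)

lemma cut_cont (a : ℝ) : Continuous (cut a) := by unfold cut; fun_prop
lemma cutc_cont (a : ℝ) : Continuous (cutc a) := by unfold cutc; fun_prop

lemma cut_mul_cutc {a : ℝ} (ha : 0 < a) (t : ℝ) : cut a t * cutc a t = 0 := by
  unfold cut cutc
  rcases le_total t a with h | h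
  · have : (t - a) / a ≤ 0 := div_nonpos_of_nonpos_of_nonneg (by linarith) ha.le
    rw [max_eq_left this]; simp
  · have : 1 - t / a ≤ 0 := by
      rw [sub_nonpos, one_le_div ha]; exact h
    rw [max_eq_left this]; simp

lemma cut_nonneg (a t : ℝ) : 0 ≤ cut a t := by unfold cut; positivity
lemma cut_le_one (a t : ℝ) : cut a t ≤ 1 := by unfold cut; exact min_le_left _ _
lemma cut_est {a : ℝ} (ha : 0 < a) {t : ℝ} (ht : 0 ≤ t) :
    |(1 - cut a t) * t * (1 - cut a t)| ≤ 2 * a := by
  have h0 := cut_nonneg a t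
  have h1 := cut_le_one a t
  rw [abs_of_nonneg (by
    have : 0 ≤ 1 - cut a t := by linarith
    positivity)]
  rcases le_total t (2 * a) with h | h
  · have h2 : 0 ≤ 1 - cut a t := by linarith
    have h3 : 1 - cut a t ≤ 1 := by linarith
    calc (1 - cut a t) * t * (1 - cut a t) ≤ 1 * (2 * a) * 1 := by gcongr
      _ = 2 * a := by ring
  · have : cut a t = 1 := by
      unfold cut
      apply min_eq_left
      apply le_max_of_le_right
      rw [one_le_div ha]; linarith
    rw [this]; simp; linarith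

/-- B1: a two sided non-invertible element is a limit of elements with two sided exact zero
divisors. -/
lemma exists_zero_divisors (b : N) (h1 : ¬ IsUnit (star b * b)) (h2 : ¬ IsUnit (b * star b))
    {ε : ℝ} (hε : 0 < ε) :
    ∃ b' x y : N, ‖b' - b‖ ≤ ε ∧ 0 ≤ x ∧ 0 ≤ y ∧ x ≠ 0 ∧ y ≠ 0 ∧ b' * x = 0 ∧ y * b' = 0 := by
  set a : ℝ := ε ^ 2 / 8 with ha
  have ha0 : 0 < a := by positivity
  set p := star b * b with hp
  set q := b * star b with hq
  have hp0 : 0 ≤ p := star_mul_self_nonneg b
  have hq0 : 0 ≤ q := mul_star_self_nonneg b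
  have hpsa : IsSelfAdjoint p := hp0.isSelfAdjoint
  have hqsa : IsSelfAdjoint q := hq0.isSelfAdjoint
  have hnt : Nontrivial N := by
    by_contra hn
    rw [not_nontrivial_iff_subsingleton] at hn
    exact h1 (by rw [Subsingleton.elim p 1]; exact isUnit_one)
  have est : ∀ (r : N), 0 ≤ r → ‖(1 - cfc (cut a) r) * r * (1 - cfc (cut a) r)‖ ≤ (ε / 2) ^ 2 := by
    intro r hr
    have hrsa : IsSelfAdjoint r := hr.isSelfAdjoint
    have hcc := cut_cont a
    have e1 : 1 - cfc (cut a) r = cfc (fun t => 1 - cut a t) r := by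
      rw [cfc_sub (fun _ => 1) (cut a) r, cfc_const_one ℝ r]
    rw [e1, cfc_mul_self hrsa _ (by fun_prop), cfc_mul' _ _ (by fun_prop) (by fun_prop)]
    apply norm_cfc_le (by positivity)
    intro t ht
    rw [Real.norm_eq_abs]
    refine (cut_est ha0 (spectrum_nonneg_of_nonneg hr ht)).trans (le_of_eq ?_)
    rw [ha]; ring
  have hcn : ∀ r : N, ‖cfc (cut a) r‖ ≤ 1 := by
    intro r
    apply norm_cfc_le zero_le_one
    intro t _
    rw [Real.norm_of_nonneg (cut_nonneg _ _)]
    exact cut_le_one _ _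
  have hz : ∀ r : N, 0 ≤ r → ¬ IsUnit r → cfc (cutc a) r ≠ 0 := by
    intro r hr hru h0
    have h0s : (0 : ℝ) ∈ spectrum ℝ r := (spectrum.zero_mem_iff ℝ).2 hru
    have hcc := cutc_cont a
    have := norm_apply_le_norm_cfc (cutc a) r h0s (by fun_prop) hr.isSelfAdjoint
    rw [h0, norm_zero] at this
    have h3 : cutc a 0 = 1 := by unfold cutc; simp
    rw [h3] at this
    simp at this
    linarith
  have hcc := cut_cont a
  have hcc' := cutc_cont a
  refine ⟨cfc (cut a) q * b * cfc (cut a) p, cfc (cutc a) p, cfc (cutc a) q, ?_, ?_, ?_,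
    hz p hp0 h1, hz q hq0 h2, ?_, ?_⟩
  · have s1 : ‖b - b * cfc (cut a) p‖ ≤ ε / 2 := by
      have e1 : ‖b - b * cfc (cut a) p‖ * ‖b - b * cfc (cut a) p‖ =
          ‖(1 - cfc (cut a) p) * p * (1 - cfc (cut a) p)‖ := by
        rw [← CStarRing.norm_star_mul_self]
        congr 1
        have : b - b * cfc (cut a) p = b * (1 - cfc (cut a) p) := by rw [mul_sub, mul_one]
        rw [this, star_mul, star_sub, star_one, star_cfc_real, hp]
        simp only [mul_assoc]
      have e2 := est p hp0
      rw [← e1] at e2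
      nlinarith [norm_nonneg (b - b * cfc (cut a) p)]
    have s2 : ‖b - cfc (cut a) q * b‖ ≤ ε / 2 := by
      have e1 : ‖b - cfc (cut a) q * b‖ * ‖b - cfc (cut a) q * b‖ =
          ‖(1 - cfc (cut a) q) * q * (1 - cfc (cut a) q)‖ := by
        rw [← CStarRing.norm_self_mul_star]
        congr 1
        have : b - cfc (cut a) q * b = (1 - cfc (cut a) q) * b := by rw [sub_mul, one_mul]
        rw [this, star_mul, star_sub, star_one, star_cfc_real, hq]
        simp only [mul_assoc]
      have e2 := est q hq0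
      rw [← e1] at e2
      nlinarith [norm_nonneg (b - cfc (cut a) q * b)]
    have e3 : cfc (cut a) q * b * cfc (cut a) p - b =
        -(cfc (cut a) q * (b - b * cfc (cut a) p)) - (b - cfc (cut a) q * b) := by
      noncomm_ring
    rw [e3]
    calc _ ≤ ‖-(cfc (cut a) q * (b - b * cfc (cut a) p))‖ + ‖b - cfc (cut a) q * b‖ :=
          norm_sub_le _ _
      _ ≤ 1 * (ε / 2) + ε / 2 := by
          rw [norm_neg]
          gcongr
          refine (norm_mul_le _ _).trans ?_
          gcongr
          exact hcn q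
      _ = ε := by ring
  · exact cfc_nonneg fun t _ => by unfold cutc; positivity
  · exact cfc_nonneg fun t _ => by unfold cutc; positivity
  · rw [mul_assoc, cfc_mul' _ _ (by fun_prop) (by fun_prop)]
    have : (fun t => cut a t * cutc a t) = fun _ => 0 := by
      funext t; exact cut_mul_cutc ha0 t
    rw [this, cfc_const_zero, mul_zero]
  · rw [mul_assoc, ← mul_assoc, cfc_mul' _ _ (by fun_prop) (by fun_prop)]
    have : (fun t => cutc a t * cut a t) = fun _ => 0 := by
      funext t; rw [mul_comm]; exact cut_mul_cutc ha0 t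
    rw [this, cfc_const_zero, zero_mul]

end

end Pool.Agent.MP_739d9d_an
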