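import Mathlib
import Pool.Agent.MP_739d9d_an.Gen

set_option autoImplicit false
set_option linter.unusedSectionVars false

open Filter Topology

namespace Pool.Agent.MP_739d9d_an

section
variable {N : Type*} [CStarAlgebra N] [PartialOrder N] [StarOrderedRing N]

lemma conj_mono {a b c : N} (h : a ≤ b) : star c * a * c ≤ star c * b * c :=
  star_left_conjugate_le_conjugate h c

lemma conj_mono_sa {a b c : N} (hc : star c = c) (h : a ≤ b) : c * a * c ≤ c * b * c := by
  have := star_left_conjugate_le_conjugate h c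
  rwa [hc] at this

lemma mul_self_le_one_of_norm {c : N} (hc : star c = c) (hn : ‖c‖ ≤ 1) : c * c ≤ 1 := by
  have h0 : (0 : N) ≤ c * c := by
    have := star_mul_self_nonneg c
    rwa [hc] at this
  refine (CStarAlgebra.norm_le_one_iff_of_nonneg (c * c) h0).1 ?_
  exact (norm_mul_le _ _).trans (by nlinarith [norm_nonneg c])

/-- shifting function -/
noncomputable def shf (a : ℝ) (t : ℝ) : ℝ := max 0 (t - a)
lemma shf_cont (a : ℝ) : Continuous (shf a) := by unfold shf; fun_prop
lemma shf_nonneg (a t : ℝ) : 0 ≤ shf a t := le_max_left _ _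

lemma exists_phi (q c : N) (hq : 0 ≤ q) (hcs : star c = c) (hcn : ‖c‖ ≤ 1) (hqc : q * c ≠ 0) :
    ∃ (φ φ' : N) (τ : ℝ), 0 < τ ∧ τ ≤ 1 ∧ star φ = φ ∧ ‖φ‖ = 1 ∧ φ = c * φ' ∧
      τ • (φ * φ) ≤ φ * q * φ := by
  have hnt : Nontrivial N := ⟨⟨_, _, hqc⟩⟩
  set t := c * q * c with ht
  have ht0 : 0 ≤ t := by
    have := star_left_conjugate_nonneg hq c
    rwa [hcs] at this
  have htsa : IsSelfAdjoint t := ht0.isSelfAdjoint
  have htne : t ≠ 0 := by
    intro h
    apply hqc
    apply mul_eq_zero_of_conj hq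
    rw [hcs]; exact h
  have htn : 0 < ‖t‖ := norm_pos_iff.2 htne
  set τ₀ : ℝ := min 1 (‖t‖ / 2) with hτ₀
  have hτ₀0 : 0 < τ₀ := by positivity
  have hcont := shf_cont τ₀
  set w := cfc (shf τ₀) t with hw
  have hwsa : star w = w := star_cfc_real _ _
  have hw0 : 0 ≤ w := cfc_nonneg fun x _ => shf_nonneg _ _
  set φ₀ := c * w * c with hφ₀
  have hφ₀s : star φ₀ = φ₀ := by
    rw [hφ₀, star_mul, star_mul, hcs, hwsa]; simp only [mul_assoc]
  -- nonzero
  have hφ₀ne : φ₀ ≠ 0 := by
    intro h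
    have h1 : w * c = 0 := by
      apply mul_eq_zero_of_conj hw0
      rw [hcs]; exact h
    have h2 : w * t = 0 := by
      rw [ht, ← mul_assoc, ← mul_assoc, h1, zero_mul, zero_mul]
    rw [hw, cfc_mul_self htsa _ (by fun_prop)] at h2
    have hmem : ‖t‖ ∈ spectrum ℝ t := CStarAlgebra.norm_mem_spectrum_of_nonneg ht0
    have h3 := norm_apply_le_norm_cfc (fun x => shf τ₀ x * x) t hmem (by fun_prop) htsa
    rw [h2, norm_zero] at h3
    have h4 : 0 < shf τ₀ ‖t‖ * ‖t‖ := by
      apply mul_pos _ htn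
      unfold shf
      apply lt_max_of_lt_right
      have : τ₀ ≤ ‖t‖ / 2 := min_le_right _ _
      linarith
    rw [Real.norm_of_nonneg h4.le] at h3
    linarith
  have hφ₀n : 0 < ‖φ₀‖ := norm_pos_iff.2 hφ₀ne
  -- the inequality
  have hineq : τ₀ • (φ₀ * φ₀) ≤ φ₀ * q * φ₀ := by
    have e1 : φ₀ * q * φ₀ = c * (w * t * w) * c := by rw [hφ₀, ht]; simp only [mul_assoc]
    have e2 : φ₀ * φ₀ = c * (w * (c * c) * w) * c := by rw [hφ₀]; simp only [mul_assoc]
    have s1 : τ₀ • (w * w) ≤ w * t * w := by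
      rw [hw, cfc_mul_self htsa _ (by fun_prop), cfc_mul' _ _ (by fun_prop) (by fun_prop),
        cfc_mul' _ _ (by fun_prop) (by fun_prop), ← cfc_smul τ₀ _ t (by fun_prop)]
      apply cfc_mono _ (by fun_prop) (by fun_prop)
      intro x _
      simp only [smul_eq_mul]
      unfold shf
      rcases le_total x τ₀ with h | h
      · rw [max_eq_left (by linarith)]; simp
      · have h5 : 0 ≤ max 0 (x - τ₀) := le_max_left _ _
        nlinarith [mul_nonneg h5 h5]
    have s2 : w * (c * c) * w ≤ w * w := by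
      have := conj_mono_sa hwsa (mul_self_le_one_of_norm hcs hcn)
      rwa [mul_one] at this
    rw [e1, e2]
    calc τ₀ • (c * (w * (c * c) * w) * c) = c * (τ₀ • (w * (c * c) * w)) * c := by
          rw [mul_smul_comm, smul_mul_assoc]
      _ ≤ c * (w * t * w) * c := by
          apply conj_mono_sa hcs
          exact (smul_le_smul_of_nonneg_left s2 hτ₀0.le).trans s1
  refine ⟨‖φ₀‖⁻¹ • φ₀, ‖φ₀‖⁻¹ • (w * c), τ₀, hτ₀0, min_le_left _ _, ?_, ?_, ?_, ?_⟩
  · rw [star_smul, hφ₀s, star_trivial]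
  · rw [norm_smul, norm_inv, norm_norm, inv_mul_cancel₀ hφ₀n.ne']
  · rw [mul_smul_comm, hφ₀, mul_assoc]
  · rw [smul_mul_smul_comm, smul_mul_assoc, smul_mul_assoc, mul_smul_comm, smul_smul, smul_smul,
      mul_comm τ₀, ← smul_smul (‖φ₀‖⁻¹ * ‖φ₀‖⁻¹) τ₀]
    exact smul_le_smul_of_nonneg_left hineq (by positivity)

/-- ramp function: `0` below `1 - 3a`, `1` above `1 - 2a`. -/
noncomputable def rmp (a : ℝ) (t : ℝ) : ℝ := min 1 (max 0 ((t - (1 - 3 * a)) / a))
lemma rmp_cont (a : ℝ) : Continuous (rmp a) := by unfold rmp; fun_prop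
lemma rmp_nonneg (a t : ℝ) : 0 ≤ rmp a t := by unfold rmp; positivity
lemma rmp_le_one (a t : ℝ) : rmp a t ≤ 1 := by unfold rmp; exact min_le_left _ _
lemma rmp_eq_zero {a t : ℝ} (ha : 0 < a) (h : t ≤ 1 - 3 * a) : rmp a t = 0 := by
  unfold rmp
  have : (t - (1 - 3 * a)) / a ≤ 0 := div_nonpos_of_nonpos_of_nonneg (by linarith) ha.le
  rw [max_eq_left this]; simp
lemma rmp_eq_one {a t : ℝ} (ha : 0 < a) (h : 1 - 2 * a ≤ t) : rmp a t = 1 := by
  unfold rmp
  apply min_eq_left
  apply le_max_of_le_right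
  rw [one_le_div ha]; linarith

lemma exists_l (φ f : N) (hφs : star φ = φ) (hφn : ‖φ‖ = 1) (hf0 : 0 ≤ f) (hfn : ‖f‖ ≤ 1)
    {ε₁ ε₂ : ℝ} (hε₂ : 0 < ε₂) (hε₂3 : 3 * ε₂ < 1) (hε₁ : ε₁ ≤ ε₂)
    (hcomm : ‖f * φ - φ * f‖ ≤ ε₁) (hbig : 1 - ε₂ ≤ ‖f * (φ * φ) * f‖) :
    ∃ l c l' c' : N, star l = l ∧ ‖l‖ ≤ 1 ∧ 0 ≤ c ∧ c ≠ 0 ∧ l * c = c ∧ l = φ * l' ∧ c = φ * c' ∧
      ‖(1 - f) * l‖ ^ 2 ≤ 5 * ε₂ := by
  have hfs : star f = f := hf0.isSelfAdjoint
  set a := φ * (f * f) * φ with ha
  have ha0 : 0 ≤ a := by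
    have : a = star (f * φ) * (f * φ) := by
      rw [star_mul, hφs, hfs, ha]; simp only [mul_assoc]
    rw [this]; exact star_mul_self_nonneg _
  have hasa : IsSelfAdjoint a := ha0.isSelfAdjoint
  have han : ‖a‖ = ‖f * (φ * φ) * f‖ := by
    have e1 : a = star (f * φ) * (f * φ) := by
      rw [star_mul, hφs, hfs, ha]; simp only [mul_assoc]
    have e2 : f * (φ * φ) * f = (f * φ) * star (f * φ) := by
      rw [star_mul, hφs, hfs]; simp only [mul_assoc]
    rw [e1, e2, CStarRing.norm_star_mul_self, CStarRing.norm_self_mul_star]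
  have han1 : 1 - ε₂ ≤ ‖a‖ := by rw [han]; exact hbig
  have hale : ‖a‖ ≤ 1 := by
    rw [ha]
    calc ‖φ * (f * f) * φ‖ ≤ ‖φ‖ * (‖f‖ * ‖f‖) * ‖φ‖ := by
          refine (norm_mul_le _ _).trans ?_
          gcongr
          refine (norm_mul_le _ _).trans ?_
          gcongr
          exact norm_mul_le _ _
      _ ≤ 1 * (1 * 1) * 1 := by gcongr <;> first | exact hφn.le | exact hfn
      _ = 1 := by norm_num
  have hnt : Nontrivial N := by
    by_contra hn
    rw [not_nontrivial_iff_subsingleton] at hn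
    have : ‖φ‖ = 0 := by rw [Subsingleton.elim φ 0, norm_zero]
    rw [this] at hφn; exact zero_ne_one hφn
  have hspec : ∀ t ∈ spectrum ℝ a, 0 ≤ t ∧ t ≤ 1 := by
    intro t ht
    refine ⟨spectrum_nonneg_of_nonneg ha0 ht, ?_⟩
    have := spectrum.norm_le_norm_of_mem ht
    rw [Real.norm_eq_abs] at this
    exact (le_abs_self t).trans (this.trans hale)
  have hr := rmp_cont ε₂
  set g : ℝ → ℝ := fun t => rmp ε₂ t / max t (1 - 3 * ε₂) with hg
  have hmpos : ∀ t : ℝ, 0 < max t (1 - 3 * ε₂) := fun t => lt_max_of_lt_right (by linarith)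
  have hgc : Continuous g := by
    apply Continuous.div (by fun_prop) (by fun_prop)
    intro t; exact (hmpos t).ne'
  set k : ℝ → ℝ := fun t => shf (1 - 2 * ε₂) t with hk
  have hkc : Continuous k := shf_cont _
  set k' : ℝ → ℝ := fun t => shf (1 - 2 * ε₂) t / max t (1 - 3 * ε₂) with hk'
  have hkc' : Continuous k' := by
    have := shf_cont (1 - 2 * ε₂)
    apply Continuous.div (by fun_prop) (by fun_prop)
    intro t; exact (hmpos t).ne'
  set l := cfc (rmp ε₂) a with hl
  set c := cfc k a with hc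
  have hlsa : star l = l := star_cfc_real _ _
  have hlg : l = a * cfc g a := by
    rw [self_mul_cfc hasa g (by fun_prop), hl]
    apply cfc_congr
    intro t _
    simp only [hg]
    rcases le_total t (1 - 3 * ε₂) with h | h
    · rw [rmp_eq_zero hε₂ h]; simp
    · rw [max_eq_left h]
      have : t ≠ 0 := by linarith
      field_simp
  have hck : c = a * cfc k' a := by
    rw [self_mul_cfc hasa k' (by fun_prop), hc]
    apply cfc_congr
    intro t _
    simp only [hk, hk']
    rcases le_total t (1 - 3 * ε₂) with h | h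
    · have : shf (1 - 2 * ε₂) t = 0 := by
        unfold shf; apply max_eq_left; linarith
      rw [this]; simp
    · rw [max_eq_left h]
      have : t ≠ 0 := by linarith
      field_simp
  have hlc : l * c = c := by
    rw [hl, hc, cfc_mul' _ _ (by fun_prop) (by fun_prop)]
    apply cfc_congr
    intro t _
    simp only [hk]
    rcases le_total t (1 - 2 * ε₂) with h | h
    · have : shf (1 - 2 * ε₂) t = 0 := by
        unfold shf; apply max_eq_left; linarith
      rw [this]; simp
    · rw [rmp_eq_one hε₂ h, one_mul]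
  have hln : ‖l‖ ≤ 1 := by
    apply norm_cfc_le zero_le_one
    intro t _
    rw [Real.norm_of_nonneg (rmp_nonneg _ _)]
    exact rmp_le_one _ _
  have hcne : c ≠ 0 := by
    intro h0
    have hmem : ‖a‖ ∈ spectrum ℝ a := CStarAlgebra.norm_mem_spectrum_of_nonneg ha0
    have h3 := norm_apply_le_norm_cfc k a hmem (by fun_prop) hasa
    rw [← hc, h0, norm_zero] at h3
    have h4 : 0 < k ‖a‖ := by
      simp only [hk]
      unfold shf
      apply lt_max_of_lt_right
      linarith
    rw [Real.norm_of_nonneg h4.le] at h3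
    linarith
  refine ⟨l, c, f * f * φ * cfc g a, f * f * φ * cfc k' a, hlsa, hln,
    cfc_nonneg fun t _ => shf_nonneg _ _, hcne, hlc, ?_, ?_, ?_⟩
  · rw [hlg, ha]; simp only [mul_assoc]
  · rw [hck, ha]; simp only [mul_assoc]
  · -- the norm estimate
    have hff : f * f ≤ f := by
      -- f - f*f ≥ 0
      have h1 : cfc (fun t : ℝ => t * t) f ≤ cfc (fun t : ℝ => t) f := by
        refine cfc_mono ?_ (by fun_prop) (by fun_prop)
        intro t ht
        have h0 := spectrum_nonneg_of_nonneg hf0 ht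
        have h2 := spectrum.norm_le_norm_of_mem ht
        rw [Real.norm_eq_abs] at h2
        have h3 : t ≤ 1 := (le_abs_self t).trans (h2.trans hfn)
        nlinarith
      rw [cfc_id' ℝ f, ← cfc_mul' (fun t => t) (fun t => t) (by fun_prop) (by fun_prop),
        cfc_id' ℝ f] at h1
      exact h1
    have h1 : (1 - f) * (1 - f) ≤ 1 - f * f := by
      have e : 1 - f * f - (1 - f) * (1 - f) = (2 : ℝ) • (f - f * f) := by
        rw [two_smul]; noncomm_ring
      rw [← sub_nonneg, e]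
      apply smul_nonneg (by norm_num)
      rwa [sub_nonneg]
    have hφφ : φ * φ ≤ 1 := mul_self_le_one_of_norm hφs hφn.le
    -- a ≤ f*f + 2 ε₁
    have h2 : a - (2 * ε₁) • (1 : N) ≤ f * f := by
      have s1 : f * (φ * φ) * f ≤ f * f := by
        have := conj_mono_sa hfs hφφ
        rwa [mul_one] at this
      have s2 : a - f * (φ * φ) * f ≤ (2 * ε₁) • (1 : N) := by
        have hsa : IsSelfAdjoint (a - f * (φ * φ) * f) := by
          apply IsSelfAdjoint.sub hasa
          rw [isSelfAdjoint_iff, star_mul, star_mul, star_mul, hφs, hfs]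
          simp only [mul_assoc]
        have s3 := hsa.le_algebraMap_norm_self
        have s4 : ‖a - f * (φ * φ) * f‖ ≤ 2 * ε₁ := by
          have e : a - f * (φ * φ) * f =
              -((f * φ - φ * f) * (f * φ)) - (f * φ) * (φ * f - f * φ) := by
            rw [ha]; noncomm_ring
          rw [e]
          have e3 : ‖φ * f - f * φ‖ ≤ ε₁ := by rw [← norm_neg, neg_sub]; exact hcomm
          have e4 : ‖f * φ‖ ≤ 1 := by
            refine (norm_mul_le _ _).trans ?_
            rw [hφn, mul_one]; exact hfn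
          have hε₁0 : 0 ≤ ε₁ := (norm_nonneg _).trans hcomm
          calc _ ≤ ‖f * φ - φ * f‖ * ‖f * φ‖ + ‖f * φ‖ * ‖φ * f - f * φ‖ := by
                refine (norm_sub_le _ _).trans ?_
                rw [norm_neg]
                gcongr <;> exact norm_mul_le _ _
            _ ≤ ε₁ * 1 + 1 * ε₁ := by gcongr
            _ = 2 * ε₁ := by ring
        refine s3.trans ?_
        rw [Algebra.algebraMap_eq_smul_one]
        exact smul_le_smul_of_nonneg_right s4 zero_le_one
      rw [sub_le_iff_le_add] at s2 ⊢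
      calc a ≤ (2 * ε₁) • (1 : N) + f * (φ * φ) * f := s2
        _ ≤ (2 * ε₁) • (1 : N) + f * f := by gcongr
        _ = _ := add_comm _ _
    -- l a l ≥ (1 - 3 ε₂) l²
    have h3 : (1 - 3 * ε₂) • (l * l) ≤ l * a * l := by
      rw [hl, cfc_mul_self hasa _ (by fun_prop), cfc_mul' _ _ (by fun_prop) (by fun_prop),
        cfc_mul' _ _ (by fun_prop) (by fun_prop), ← cfc_smul (1 - 3 * ε₂) _ a (by fun_prop)]
      apply cfc_mono _ (by fun_prop) (by fun_prop)
      intro x _
      simp only [smul_eq_mul]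
      rcases le_total x (1 - 3 * ε₂) with h | h
      · rw [rmp_eq_zero hε₂ h]; simp
      · have h5 : 0 ≤ rmp ε₂ x := rmp_nonneg _ _
        nlinarith [mul_nonneg h5 h5]
    have hll : l * l ≤ 1 := mul_self_le_one_of_norm hlsa hln
    have h4 : l * ((1 - f) * (1 - f)) * l ≤ (5 * ε₂) • (1 : N) := by
      have s1 : l * ((1 - f) * (1 - f)) * l ≤ l * (1 - f * f) * l := conj_mono_sa hlsa h1
      have s2 : l * (1 - f * f) * l ≤ l * (1 - (a - (2 * ε₁) • (1 : N))) * l :=
        conj_mono_sa hlsa (sub_le_sub_left h2 1)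
      have e : l * (1 - (a - (2 * ε₁) • (1 : N))) * l = (1 + 2 * ε₁) • (l * l) - l * a * l := by
        rw [mul_sub, mul_one, mul_sub, mul_smul_comm, mul_one, sub_mul, sub_mul, smul_mul_assoc,
          add_smul, one_smul]
        abel
      have s3 : (1 + 2 * ε₁) • (l * l) - l * a * l ≤ (3 * ε₂ + 2 * ε₁) • (l * l) := by
        rw [sub_le_iff_le_add]
        calc (1 + 2 * ε₁) • (l * l) = (3 * ε₂ + 2 * ε₁) • (l * l) + (1 - 3 * ε₂) • (l * l) := by
              rw [← add_smul]; congr 1; ring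
          _ ≤ _ := by gcongr
      have hε₁0 : 0 ≤ ε₁ := (norm_nonneg _).trans hcomm
      have s4 : (3 * ε₂ + 2 * ε₁) • (l * l) ≤ (5 * ε₂) • (1 : N) := by
        calc (3 * ε₂ + 2 * ε₁) • (l * l) ≤ (3 * ε₂ + 2 * ε₁) • (1 : N) :=
              smul_le_smul_of_nonneg_left hll (by positivity)
          _ ≤ (5 * ε₂) • (1 : N) :=
              smul_le_smul_of_nonneg_right (by linarith) zero_le_one
      exact s1.trans (s2.trans ((le_of_eq e).trans (s3.trans s4)))
    have h5 : ‖(1 - f) * l‖ ^ 2 = ‖l * ((1 - f) * (1 - f)) * l‖ := by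
      rw [sq, ← CStarRing.norm_star_mul_self, star_mul, hlsa, star_sub, star_one, hfs]
      simp only [mul_assoc]
    rw [h5]
    have h6 : 0 ≤ l * ((1 - f) * (1 - f)) * l := by
      have : l * ((1 - f) * (1 - f)) * l = star ((1 - f) * l) * ((1 - f) * l) := by
        rw [star_mul, hlsa, star_sub, star_one, hfs]; simp only [mul_assoc]
      rw [this]; exact star_mul_self_nonneg _
    rw [CStarAlgebra.norm_le_iff_le_algebraMap _ (by positivity) h6,
      Algebra.algebraMap_eq_smul_one]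
    exact h4

end

end Pool.Agent.MP_739d9d_an
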