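import Mathlib
import Pool.Agent.MP_739d9d_an.CP2

set_option autoImplicit false
set_option linter.unusedSectionVars false

open Filter Topology

namespace Pool.Agent.MP_739d9d_an

lemma isUnit_of_mul_isUnit_both {R : Type*} [Ring R] {x y : R} (h1 : IsUnit (x * y))
    (h2 : IsUnit (y * x)) : IsUnit x := by
  obtain ⟨a, ha⟩ := h1
  obtain ⟨b, hb⟩ := h2
  have hr : x * (y * ↑a⁻¹) = 1 := by rw [← mul_assoc, ← ha, a.mul_inv]
  have hl : (↑b⁻¹ * y) * x = 1 := by rw [mul_assoc, ← hb, b.inv_mul]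
  have : ↑b⁻¹ * y = y * ↑a⁻¹ := by
    calc ↑b⁻¹ * y = ↑b⁻¹ * y * (x * (y * ↑a⁻¹)) := by rw [hr, mul_one]
      _ = (↑b⁻¹ * y * x) * (y * ↑a⁻¹) := by simp only [mul_assoc]
      _ = y * ↑a⁻¹ := by rw [hl, one_mul]
  exact ⟨⟨x, y * ↑a⁻¹, hr, by rw [← this]; exact hl⟩, rfl⟩

lemma isUnit_one_add_of_norm_lt {R : Type*} [NormedRing R] [CompleteSpace R] {x : R}
    (h : ‖x‖ < 1) : IsUnit (1 + x) := by
  have : ‖-x‖ < 1 := by rwa [norm_neg]
  have h2 := isUnit_one_sub_of_norm_lt_one this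
  simpa using h2

/-- inverse of `1 + x` for small `x`. -/
lemma exists_inv_one_add {R : Type*} [CStarAlgebra R] {x : R} (h : ‖x‖ ≤ 1 / 2) :
    ∃ L : R, L * (1 + x) = 1 ∧ (1 + x) * L = 1 ∧ ‖L‖ ≤ 2 ∧ ‖L - 1‖ ≤ 2 * ‖x‖ := by
  obtain ⟨v, hv⟩ := isUnit_one_add_of_norm_lt (x := x) (by linarith)
  have h1 : (↑v⁻¹ : R) * (1 + x) = 1 := by rw [← hv, v.inv_mul]
  have h2 : (1 + x) * (↑v⁻¹ : R) = 1 := by rw [← hv, v.mul_inv]
  have h3 : (↑v⁻¹ : R) - 1 = - (↑v⁻¹ * x) := by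
    have : (↑v⁻¹ : R) * 1 + ↑v⁻¹ * x = 1 := by rw [← mul_add, h1]
    rw [mul_one] at this
    rw [eq_neg_iff_add_eq_zero]
    rw [sub_add_eq_add_sub, this, sub_self]
  have h4 : ‖(↑v⁻¹ : R)‖ ≤ 2 := by
    have h5 : (↑v⁻¹ : R) = 1 + - (↑v⁻¹ * x) := by rw [← h3]; abel
    have h6 : ‖(↑v⁻¹ : R)‖ ≤ 1 + ‖(↑v⁻¹ : R)‖ * ‖x‖ := by
      calc ‖(↑v⁻¹ : R)‖ = ‖1 + - ((↑v⁻¹ : R) * x)‖ := by rw [← h5]
        _ ≤ ‖(1 : R)‖ + ‖- ((↑v⁻¹ : R) * x)‖ := norm_add_le _ _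
        _ ≤ 1 + ‖(↑v⁻¹ : R)‖ * ‖x‖ := by
            rw [norm_neg]
            gcongr
            · exact norm_one_le
            · exact norm_mul_le _ _
    nlinarith [norm_nonneg (↑v⁻¹ : R)]
  refine ⟨↑v⁻¹, h1, h2, h4, ?_⟩
  rw [h3, norm_neg]
  refine (norm_mul_le _ _).trans ?_
  gcongr

namespace CP
section
variable {A G : Type*} [CStarAlgebra A] [PartialOrder A] [StarOrderedRing A]
    [Group G] [Fintype G] [DecidableEq G] {α : G → (A ≃⋆ₐ[ℂ] A)}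
    {B : Type*} [CStarAlgebra B] (cp : CP α B)

/-- The covariant matrix of an element of the crossed product. -/
noncomputable def mat (b : B) : CStarMatrix G G A :=
  CStarMatrix.ofMatrix fun g h => α g⁻¹ (cp.co b (g * h⁻¹))

lemma mat_apply (b : B) (g h : G) : cp.mat b g h = α g⁻¹ (cp.co b (g * h⁻¹)) := rfl

lemma col_sum (hα1 : ∀ a : A, α 1 a = a) (hαm : ∀ (g h : G) (a : A), α (g * h) a = α g (α h a))
    (b : B) (h : G) :
    ∑ g, cp.u g * cp.ι (cp.mat b g h) * cp.u h⁻¹ = b := by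
  conv_rhs => rw [← cp.co_spec b]
  refine Fintype.sum_equiv (Equiv.mulRight h⁻¹) _ _ fun g => ?_
  rw [cp.mat_apply, cp.u_comm, mul_assoc, cp.u_mul]
  rw [← hαm, mul_inv_cancel, hα1]
  rfl

lemma norm_Psi_mat_sub_le (hα1 : ∀ a : A, α 1 a = a)
    (hαm : ∀ (g h : G) (a : A), α (g * h) a = α g (α h a)) (b : B) (f : G → A)
    (hf1 : ∀ g, ‖f g‖ ≤ 1) (hfo : ∀ g h, g ≠ h → f g * f h = 0) {δ : ℝ} 
    (hf : ∀ g h, ‖α g (f h) - f (g * h)‖ ≤ δ)
    (hc : ∀ g h, ‖f 1 * cp.mat b g h - cp.mat b g h * f 1‖ ≤ δ) :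
    ‖cp.Psi (f 1) (cp.mat b) - b * cp.ι ((∑ g, f g) ^ 2)‖ ≤
      (Fintype.card G) ^ 2 * δ + Fintype.card G * (‖b‖ * (2 * δ)) := by
  set H := f 1 with hH
  -- intermediate: b * ∑ α h (H)^2
  have hsq : (∑ g, f g) ^ 2 = ∑ g, f g * f g := by
    rw [sq, Finset.sum_mul]
    refine Finset.sum_congr rfl fun g _ => ?_
    rw [Finset.mul_sum, Finset.sum_eq_single g]
    · intro h _ hh; exact hfo g h (Ne.symm hh)
    · intro h; exact absurd (Finset.mem_univ _) h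
  have e1 : b * cp.ι (∑ h, α h H * α h H) =
      ∑ g, ∑ h, cp.u g * cp.ι (cp.mat b g h * (H * H)) * cp.u h⁻¹ := by
    rw [Finset.sum_comm, map_sum, Finset.mul_sum]
    refine Finset.sum_congr rfl fun h _ => ?_
    conv_lhs => rw [← cp.col_sum hα1 hαm b h]
    rw [Finset.sum_mul]
    refine Finset.sum_congr rfl fun g _ => ?_
    have h1 : cp.u h⁻¹ * cp.ι (α h H * α h H) = cp.ι (H * H) * cp.u h⁻¹ := by
      rw [cp.u_comm, ← map_mul, ← hαm, inv_mul_cancel, hα1]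
    rw [mul_assoc, h1, map_mul cp.ι (cp.mat b g h)]
    simp only [mul_assoc]
  have h2 : ‖cp.Psi H (cp.mat b) - b * cp.ι (∑ h, α h H * α h H)‖ ≤
      (Fintype.card G) ^ 2 * δ := by
    rw [e1]
    unfold Psi
    rw [← Finset.sum_sub_distrib]
    have hb : ∀ g h, ‖cp.u g * cp.ι (H * cp.mat b g h * H) * cp.u h⁻¹ -
        cp.u g * cp.ι (cp.mat b g h * (H * H)) * cp.u h⁻¹‖ ≤ δ := by
      intro g h
      have : cp.u g * cp.ι (H * cp.mat b g h * H) * cp.u h⁻¹ -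
        cp.u g * cp.ι (cp.mat b g h * (H * H)) * cp.u h⁻¹ =
        cp.u g * cp.ι ((H * cp.mat b g h - cp.mat b g h * H) * H) * cp.u h⁻¹ := by
        rw [sub_mul, map_sub, mul_sub, sub_mul]
        simp only [mul_assoc]
      rw [this]
      refine (cp.norm_conj_le _ _ _).trans ((cp.norm_ι_le _).trans ((norm_mul_le _ _).trans ?_))
      calc _ ≤ δ * 1 := by
            have hδ0 : 0 ≤ δ := (norm_nonneg _).trans (hc 1 1)
            gcongr
            · exact hc g h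
            · exact hf1 1
        _ = δ := mul_one _
    calc _ ≤ ∑ g : G, ∑ h : G, δ := by
          refine (norm_sum_le _ _).trans ?_
          gcongr with g _
          rw [← Finset.sum_sub_distrib]
          refine (norm_sum_le _ _).trans ?_
          gcongr with h _
          exact hb g h
      _ = _ := by
          simp [Finset.sum_const, Finset.card_univ]
          ring
  have h3 : ‖b * cp.ι (∑ h, α h H * α h H) - b * cp.ι ((∑ g, f g) ^ 2)‖ ≤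
      Fintype.card G * (‖b‖ * (2 * δ)) := by
    rw [hsq, ← mul_sub, ← map_sub, ← Finset.sum_sub_distrib]
    have hb : ∀ h, ‖α h H * α h H - f h * f h‖ ≤ 2 * δ := by
      intro h
      have e : α h H * α h H - f h * f h = α h H * (α h H - f h) + (α h H - f h) * f h := by
        noncomm_ring
      have h4 : ‖α h H - f h‖ ≤ δ := by
        have := hf h 1
        rwa [mul_one] at this
      have hδ0 : 0 ≤ δ := (norm_nonneg _).trans h4
      rw [e]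
      calc _ ≤ ‖α h H‖ * ‖α h H - f h‖ + ‖α h H - f h‖ * ‖f h‖ := by
            refine (norm_add_le _ _).trans ?_
            gcongr <;> exact norm_mul_le _ _
        _ ≤ 1 * δ + δ * 1 := by
            gcongr
            · exact (alpha_norm h H).trans (hf1 1)
            · exact hf1 h
        _ = 2 * δ := by ring
    calc _ ≤ ‖b‖ * ∑ h : G, 2 * δ := by
          refine (norm_mul_le _ _).trans ?_
          gcongr
          refine (cp.norm_ι_le _).trans ((norm_sum_le _ _).trans ?_)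
          gcongr with h _
          exact hb h
      _ = _ := by
          simp [Finset.sum_const, Finset.card_univ]
          ring
  calc _ ≤ ‖cp.Psi H (cp.mat b) - b * cp.ι (∑ h, α h H * α h H)‖ +
        ‖b * cp.ι (∑ h, α h H * α h H) - b * cp.ι ((∑ g, f g) ^ 2)‖ := norm_sub_le_norm_sub_add_norm_sub _ _ _
    _ ≤ _ := add_le_add h2 h3

/-- Step D: `1 + β f²` is close to a unit, provided the tower is good enough. -/
theorem stepD (hα1 : ∀ a : A, α 1 a = a)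
    (hαm : ∀ (g h : G) (a : A), α (g * h) a = α g (α h a))
    (hsr : Dense {b : CStarMatrix G G A | IsUnit b}) (β : B) {η : ℝ} (hη : 0 < η) :
    ∃ δ : ℝ, 0 < δ ∧ ∃ S : Finset A, ∀ f : G → A, (∀ g, ‖f g‖ ≤ 1) →
      (∀ g h, g ≠ h → f g * f h = 0) → (∀ g h, ‖α g (f h) - f (g * h)‖ ≤ δ) →
      (∀ a ∈ S, ∀ g, ‖f g * a - a * f g‖ ≤ δ) →
      ∃ w : B, IsUnit w ∧ ‖w - (1 + β * cp.ι ((∑ g, f g) ^ 2))‖ ≤ η := by
  classical
  set M : CStarMatrix G G A := cp.mat β with hM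
  set R : ℝ := ‖M‖ with hR
  have hR0 : 0 ≤ R := norm_nonneg _
  set n : ℝ := (Fintype.card G : ℝ) with hn
  have hn0 : 0 ≤ n := Nat.cast_nonneg _
  -- choose η₁
  obtain ⟨η₁, hη₁0, hη₁8, hη₁⟩ : ∃ η₁ : ℝ, 0 < η₁ ∧ η₁ ≤ 1 / 8 ∧
      n ^ 2 * (8 * η₁ * (R + 1) + 2 * η₁) ≤ η / 2 := by
    have hpos : 0 < n ^ 2 * (8 * (R + 1) + 2) + 1 := by positivity
    refine ⟨min (1 / 8) (η / 2 / (n ^ 2 * (8 * (R + 1) + 2) + 1)), by positivity,
      min_le_left _ _, ?_⟩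
    set e := min (1 / 8) (η / 2 / (n ^ 2 * (8 * (R + 1) + 2) + 1))
    have h1 : e ≤ η / 2 / (n ^ 2 * (8 * (R + 1) + 2) + 1) := min_le_right _ _
    have h0 : 0 < e := by positivity
    rw [le_div_iff₀ hpos] at h1
    nlinarith
  -- choose δ
  set C : ℝ := n ^ 4 * ((2 * (R + 1)) * (1 / η₁ * (R + 1))) with hC
  have hC0 : 0 ≤ C := by positivity
  obtain ⟨δ, hδ0, hδC, hδη⟩ : ∃ δ : ℝ, 0 < δ ∧ C * δ < 1 ∧
      n ^ 2 * δ + n * (‖β‖ * (2 * δ)) ≤ η / 2 := by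
    have hpos : 0 < n ^ 2 + n * (‖β‖ * 2) + 1 := by positivity
    refine ⟨min (1 / (C + 1)) (η / 2 / (n ^ 2 + n * (‖β‖ * 2) + 1)), by positivity, ?_, ?_⟩
    · have h1 : min (1 / (C + 1)) (η / 2 / (n ^ 2 + n * (‖β‖ * 2) + 1)) ≤ 1 / (C + 1) :=
        min_le_left _ _
      calc C * min (1 / (C + 1)) (η / 2 / (n ^ 2 + n * (‖β‖ * 2) + 1)) ≤ C * (1 / (C + 1)) := by
            gcongr
        _ = C / (C + 1) := by ring
        _ < 1 := by rw [div_lt_one (by positivity)]; linarith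
    · set e := min (1 / (C + 1)) (η / 2 / (n ^ 2 + n * (‖β‖ * 2) + 1))
      have h1 : e ≤ η / 2 / (n ^ 2 + n * (‖β‖ * 2) + 1) := min_le_right _ _
      have h0 : 0 < e := by positivity
      rw [le_div_iff₀ hpos] at h1
      nlinarith
  refine ⟨δ, hδ0, Finset.univ.image (fun p : G × G => M p.1 p.2), ?_⟩
  intro f hf1 hfo hfα hfc
  set H := f 1 with hH
  have hH1 : ‖H‖ ≤ 1 := hf1 1
  have hD1 : ‖(dg G (H * H) : CStarMatrix G G A)‖ ≤ 1 := by
    refine (norm_dg_le _).trans ((norm_mul_le _ _).trans ?_)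
    nlinarith [norm_nonneg H]
  set D : CStarMatrix G G A := dg G (H * H) with hD
  obtain ⟨W, W', hWW', hW'W, hWT, hW'⟩ := exists_unit_near hsr (1 + M * D) hη₁0
  set ζ := W - (1 + M * D) with hζ
  have hx : ‖ζ * (1 - D)‖ ≤ 4 * η₁ := by
    calc ‖ζ * (1 - D)‖ ≤ ‖ζ‖ * ‖1 - D‖ := norm_mul_le _ _
      _ ≤ (2 * η₁) * 2 := by
          gcongr
          calc ‖1 - D‖ ≤ ‖(1 : CStarMatrix G G A)‖ + ‖D‖ := norm_sub_le _ _
            _ ≤ 1 + 1 := add_le_add norm_one_le hD1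
            _ = 2 := by norm_num
      _ = 4 * η₁ := by ring
  obtain ⟨L, hL1, hL2, hL3, hL4⟩ := exists_inv_one_add (x := ζ * (1 - D)) (by linarith)
  -- key identity : L * W = 1 + L (M + ζ) D
  have hK : L * W = 1 + L * (M + ζ) * D := by
    have h1 : W = (1 + ζ * (1 - D)) + (M + ζ) * D := by
      rw [hζ]; noncomm_ring
    calc L * W = L * ((1 + ζ * (1 - D)) + (M + ζ) * D) := by rw [← h1]
      _ = 1 + L * (M + ζ) * D := by rw [mul_add, hL1, mul_assoc]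
  set Y := L * (M + ζ) with hY
  set X := -(W' * (M + ζ)) with hX
  have hMζ : ‖M + ζ‖ ≤ R + 1 := by
    calc ‖M + ζ‖ ≤ ‖M‖ + ‖ζ‖ := norm_add_le _ _
      _ ≤ R + 1 := by gcongr; linarith
  have hYn : ‖Y‖ ≤ 2 * (R + 1) := by
    calc ‖Y‖ ≤ ‖L‖ * ‖M + ζ‖ := norm_mul_le _ _
      _ ≤ _ := by gcongr
  have hXn : ‖X‖ ≤ 1 / η₁ * (R + 1) := by
    calc ‖X‖ = ‖W' * (M + ζ)‖ := norm_neg _
      _ ≤ ‖W'‖ * ‖M + ζ‖ := norm_mul_le _ _
      _ ≤ _ := by gcongr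
  have hYX : Y + X + Y * D * X = 0 := by
    have h1 : (1 + Y * D) * X = - Y := by
      rw [← hK, hX, hY]
      calc L * W * -(W' * (M + ζ)) = -(L * (W * W') * (M + ζ)) := by noncomm_ring
        _ = - (L * (M + ζ)) := by rw [hWW', mul_one]
    have h2 : Y + X + Y * D * X = Y + (1 + Y * D) * X := by noncomm_ring
    rw [h2, h1, add_neg_cancel]
  have hXY : X + Y + X * D * Y = 0 := by
    -- (1 + X D) (L W) = 1
    have h0 : W' * (1 + ζ * (1 - D)) * (L * W) = 1 := by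
      calc W' * (1 + ζ * (1 - D)) * (L * W) = W' * ((1 + ζ * (1 - D)) * L) * W := by
            simp only [mul_assoc]
        _ = 1 := by rw [hL2, mul_one, hW'W]
    have h1 : 1 + X * D = W' * (1 + ζ * (1 - D)) := by
      have h3 : W = (1 + ζ * (1 - D)) + (M + ζ) * D := by
        rw [hζ]; noncomm_ring
      have h4 : 1 + ζ * (1 - D) = W - (M + ζ) * D := by
        rw [eq_sub_iff_add_eq]; exact h3.symm
      rw [h4, mul_sub, hW'W, hX]
      noncomm_ring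
    have h5 : (1 + X * D) * Y = - X := by
      rw [h1, hY, hX]
      calc W' * (1 + ζ * (1 - D)) * (L * (M + ζ)) = W' * ((1 + ζ * (1 - D)) * L) * (M + ζ) := by
            simp only [mul_assoc]
        _ = _ := by rw [hL2, mul_one, neg_neg]
    have h2 : X + Y + X * D * Y = X + (1 + X * D) * Y := by noncomm_ring
    rw [h2, h5, add_neg_cancel]
  have hoff : ∀ x : G, x ≠ 1 → ‖H * α x H‖ ≤ δ := by
    intro x hx
    have h1 : H * α x H = H * (α x H - f x) := by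
      rw [mul_sub, hH, hfo 1 x (Ne.symm hx), sub_zero]
    rw [h1]
    calc _ ≤ ‖H‖ * ‖α x H - f x‖ := norm_mul_le _ _
      _ ≤ 1 * δ := by
          gcongr
          have := hfα x 1
          rwa [mul_one] at this
      _ = δ := one_mul _
  have hest1 := cp.norm_Psi_mul_sub_le hH1 Y X hδ0.le hoff
  have hest2 := cp.norm_Psi_mul_sub_le hH1 X Y hδ0.le hoff
  have hb1 : (Fintype.card G : ℝ) ^ 4 * (‖Y‖ * ‖X‖ * δ) < 1 := by
    calc (Fintype.card G : ℝ) ^ 4 * (‖Y‖ * ‖X‖ * δ) ≤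
          n ^ 4 * ((2 * (R + 1)) * (1 / η₁ * (R + 1)) * δ) := by gcongr
      _ = C * δ := by rw [hC]; ring
      _ < 1 := hδC
  have hb2 : (Fintype.card G : ℝ) ^ 4 * (‖X‖ * ‖Y‖ * δ) < 1 := by
    have : ‖X‖ * ‖Y‖ = ‖Y‖ * ‖X‖ := mul_comm _ _
    rw [this]; exact hb1
  have hu1 : IsUnit ((1 + cp.Psi H Y) * (1 + cp.Psi H X)) := by
    have e : (1 + cp.Psi H Y) * (1 + cp.Psi H X) =
        1 + (cp.Psi H Y * cp.Psi H X - cp.Psi H (Y * D * X)) := by
      have h1 : cp.Psi H Y + cp.Psi H X + cp.Psi H (Y * D * X) = 0 := by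
        rw [← cp.Psi_add, ← cp.Psi_add, hYX, cp.Psi_zero]
      have h2 : cp.Psi H (Y * D * X) = -(cp.Psi H Y + cp.Psi H X) :=
        (neg_eq_of_add_eq_zero_right h1).symm
      rw [h2]; noncomm_ring
    rw [e]
    exact isUnit_one_add_of_norm_lt (hest1.trans_lt hb1)
  have hu2 : IsUnit ((1 + cp.Psi H X) * (1 + cp.Psi H Y)) := by
    have e : (1 + cp.Psi H X) * (1 + cp.Psi H Y) =
        1 + (cp.Psi H X * cp.Psi H Y - cp.Psi H (X * D * Y)) := by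
      have h1 : cp.Psi H X + cp.Psi H Y + cp.Psi H (X * D * Y) = 0 := by
        rw [← cp.Psi_add, ← cp.Psi_add, hXY, cp.Psi_zero]
      have h2 : cp.Psi H (X * D * Y) = -(cp.Psi H X + cp.Psi H Y) :=
        (neg_eq_of_add_eq_zero_right h1).symm
      rw [h2]; noncomm_ring
    rw [e]
    exact isUnit_one_add_of_norm_lt (hest2.trans_lt hb2)
  refine ⟨1 + cp.Psi H Y, isUnit_of_mul_isUnit_both hu1 hu2, ?_⟩
  have hYM : ‖Y - M‖ ≤ 8 * η₁ * (R + 1) + 2 * η₁ := by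
    have e : Y - M = (L - 1) * (M + ζ) + ζ := by rw [hY]; noncomm_ring
    rw [e]
    calc _ ≤ ‖(L - 1) * (M + ζ)‖ + ‖ζ‖ := norm_add_le _ _
      _ ≤ ‖L - 1‖ * ‖M + ζ‖ + ‖ζ‖ := by gcongr; exact norm_mul_le _ _
      _ ≤ (2 * (4 * η₁)) * (R + 1) + 2 * η₁ := by
          gcongr
          exact hL4.trans (by gcongr)
      _ = _ := by ring
  have h1 : 1 + cp.Psi H Y - (1 + β * cp.ι ((∑ g, f g) ^ 2)) =
      cp.Psi H (Y - M) + (cp.Psi H M - β * cp.ι ((∑ g, f g) ^ 2)) := by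
    rw [cp.Psi_sub]; abel
  rw [h1]
  have hc : ∀ g h, ‖f 1 * cp.mat β g h - cp.mat β g h * f 1‖ ≤ δ := by
    intro g h
    exact hfc _ (Finset.mem_image.2 ⟨(g, h), Finset.mem_univ _, rfl⟩) 1
  calc _ ≤ ‖cp.Psi H (Y - M)‖ + ‖cp.Psi H M - β * cp.ι ((∑ g, f g) ^ 2)‖ := norm_add_le _ _
    _ ≤ n ^ 2 * (8 * η₁ * (R + 1) + 2 * η₁) + (n ^ 2 * δ + n * (‖β‖ * (2 * δ))) := by
        gcongr
        · exact (cp.norm_Psi_le hH1 _).trans (by gcongr)
        · exact cp.norm_Psi_mat_sub_le hα1 hαm β f hf1 hfo hfα hc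
    _ ≤ η / 2 + η / 2 := add_le_add hη₁ hδη
    _ = η := by ring

end
end CP

end Pool.Agent.MP_739d9d_an
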