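import Mathlib
import Pool.Agent.MP_739d9d_an.StepD

set_option autoImplicit false
set_option linter.unusedSectionVars false

open Filter Topology

namespace Pool.Agent.MP_739d9d_an

/-- The weak tracial Rokhlin property, in the form used by the frozen statement. -/
def WTRP {A G : Type*} [CStarAlgebra A] [Group G] [Fintype G] (α : G → (A ≃⋆ₐ[ℂ] A)) : Prop :=
  ∀ ε : ℝ, 0 < ε → ∀ F : Finset A, ∀ x : A, (∃ y : A, x = star y * y) → ‖x‖ = 1 →
        ∃ f : G → A,
          (∀ g, (∃ y : A, f g = star y * y) ∧ ‖f g‖ ≤ 1) ∧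
          (∀ g h, g ≠ h → f g * f h = 0) ∧
          (∀ g h, ‖α g (f h) - f (g * h)‖ < ε) ∧
          (∀ a ∈ F, ∀ g, ‖f g * a - a * f g‖ < ε) ∧
          (∃ v : ℕ → A, Tendsto (fun n => v n * x * star (v n)) atTop (𝓝 (1 - ∑ g, f g))) ∧
          1 - ε < ‖(∑ g, f g) * x * (∑ g, f g)‖

lemma alg_identity {R : Type*} [Ring R] [Algebra ℝ R] (b z z' : R) (lam e : ℝ) (hlam : lam ≠ 0)
    (hbz : b * z = 0) (hzb : z' * b = 0) (hzz : z * z = 0) (hzz' : z' * z' = 0) :
    (1 - (e / lam) • z') * (b + lam • (1 : R) + (e ^ 2 / lam) • (z' * z)) * (1 + (e / lam) • z) =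
      b + lam • (1 : R) + e • (z - z') := by
  set D := b + lam • (1 : R) + (e ^ 2 / lam) • (z' * z) with hD
  have h1 : D * z = lam • z := by
    rw [hD, add_mul, add_mul, hbz, smul_mul_assoc, smul_mul_assoc, mul_assoc, hzz, mul_zero,
      smul_zero, one_mul]
    abel
  have h2 : z' * D = lam • z' := by
    rw [hD, mul_add, mul_add, hzb, mul_smul_comm, mul_smul_comm, ← mul_assoc, hzz', zero_mul,
      smul_zero, mul_one]
    abel
  have e1 : (1 - (e / lam) • z') * D = D - e • z' := by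
    rw [sub_mul, one_mul, smul_mul_assoc, h2, smul_smul, div_mul_cancel₀ _ hlam]
  rw [e1, mul_add, mul_one, mul_smul_comm, sub_mul, h1, smul_mul_assoc, smul_sub, smul_smul,
    smul_smul, div_mul_cancel₀ _ hlam, hD, smul_sub]
  have : e / lam * e = e ^ 2 / lam := by ring
  rw [this]
  abel

/-- Being a limit of units. -/
def LU {B : Type*} [CStarAlgebra B] (b : B) : Prop := ∀ ε : ℝ, 0 < ε → ∃ w : B, IsUnit w ∧ ‖w - b‖ ≤ ε

namespace CP
section
variable {A G : Type*} [CStarAlgebra A] [PartialOrder A] [StarOrderedRing A]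
    [Group G] [Fintype G] [DecidableEq G] {α : G → (A ≃⋆ₐ[ℂ] A)}
    {B : Type*} [CStarAlgebra B] (cp : CP α B)

lemma ι_rsmul (t : ℝ) (a : A) : cp.ι (t • a) = t • cp.ι a := by
  rw [← Complex.coe_smul t a, map_smul, Complex.coe_smul]

theorem stepC (hα1 : ∀ a : A, α 1 a = a)
    (hαm : ∀ (g h : G) (a : A), α (g * h) a = α g (α h a))
    (hsr : Dense {b : CStarMatrix G G A | IsUnit b}) (hW : WTRP α)
    (b : B) (c r : A) (hcs : star c = c) (hrs : star r = r) (hcr : c * r = r) (hrc : r * c = r)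
    (hr1 : ‖r * r‖ = 1) (hc1 : ‖1 - c‖ ≤ 1) (hbc : b * cp.ι c = 0) (hcb : cp.ι c * b = 0) :
    LU b := by
  classical
  intro ε hε
  set n : ℝ := (Fintype.card G : ℝ) with hn
  have hn0 : 0 ≤ n := Nat.cast_nonneg _
  set K : ℝ := (n + 2) ^ 2 with hK
  have hK0 : 0 < K := by positivity
  set e : ℝ := ε / (8 * K) with he
  have he0 : 0 < e := by positivity
  set lam : ℝ := min (ε / 4) (e ^ 2 / (2 * ‖b‖ + 2)) with hlam
  have hlam0 : 0 < lam := by positivity
  have hlam1 : lam ≤ ε / 4 := min_le_left _ _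
  set Lam : ℝ := e ^ 2 / lam with hLam
  have hLam0 : 0 < Lam := by positivity
  have hLamb : 2 * ‖b‖ + 2 ≤ Lam := by
    have h1 : lam ≤ e ^ 2 / (2 * ‖b‖ + 2) := min_le_right _ _
    rw [hLam, le_div_iff₀ hlam0]
    rw [le_div_iff₀ (by positivity)] at h1
    linarith
  -- the element `P`
  set P : A := lam • (1 : A) + Lam • ((1 - c) * (1 - c)) with hP
  have hPu : IsUnit P := by
    have h1 : (0 : A) ≤ Lam • ((1 - c) * (1 - c)) := by
      apply smul_nonneg hLam0.le
      have : (1 - c) * (1 - c) = star (1 - c) * (1 - c) := by rw [star_sub, star_one, hcs]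
      rw [this]; exact star_mul_self_nonneg _
    have h2 : lam • (1 : A) ≤ P := by rw [hP]; exact le_add_of_nonneg_right h1
    exact CStarAlgebra.isUnit_of_le _ h2 (IsStrictlyPositive.smul hlam0 isStrictlyPositive_one)
  have hιP : cp.ι P = lam • (1 : B) + Lam • cp.ι ((1 - c) * (1 - c)) := by
    rw [hP, map_add, ι_rsmul, ι_rsmul, map_one]
  -- `Dbad`
  have hcb' : cp.ι ((1 - c) * (1 - c)) * b = b := by
    have h0 : cp.ι (1 - c) * b = b := by rw [map_sub, map_one, sub_mul, one_mul, hcb, sub_zero]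
    rw [map_mul, mul_assoc, h0, h0]
  have hιPb : cp.ι P * b = (lam + Lam) • b := by
    rw [hιP, add_mul, smul_mul_assoc, smul_mul_assoc, one_mul, hcb', add_smul]
  set Db : B := b + cp.ι P with hDb
  have hDbu : IsUnit Db := by
    have hs0 : 0 < lam + Lam := by positivity
    have h1 : Db = cp.ι P * (1 + (lam + Lam)⁻¹ • b) := by
      rw [mul_add, mul_one, mul_smul_comm, hιPb, smul_smul, inv_mul_cancel₀ hs0.ne', one_smul, hDb,
        add_comm]
    rw [h1]
    refine (hPu.map cp.ι).mul (isUnit_one_add_of_norm_lt ?_)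
    rw [norm_smul, Real.norm_of_nonneg (by positivity), inv_mul_lt_iff₀ hs0]
    nlinarith [norm_nonneg b]
  obtain ⟨U, hU⟩ := hDbu
  set β : B := -(Lam • ((↑U⁻¹ : B) * cp.ι ((1 - c) * (1 - c)))) with hβ
  -- tolerances
  set Q : ℝ := (1 + e / lam * K) ^ 2 with hQ
  have hQ0 : 0 < Q := by positivity
  set η : ℝ := ε / 8 / (Q * (‖Db‖ + 1)) with hη
  have hη0 : 0 < η := by positivity
  obtain ⟨δ₁, hδ₁0, S, hS⟩ := cp.stepD hα1 hαm hsr β hη0
  set δ₂ : ℝ := min 1 (ε / 8 / (Q * Lam * (n + 1 + 2 * n ^ 2 + 1))) with hδ₂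
  have hδ₂0 : 0 < δ₂ := by positivity
  have hδ₂1 : δ₂ ≤ 1 := min_le_left _ _
  have hδ₂2 : Q * (Lam * ((n + 1) * δ₂ + 2 * n ^ 2 * δ₂)) ≤ ε / 8 := by
    have h1 : δ₂ ≤ ε / 8 / (Q * Lam * (n + 1 + 2 * n ^ 2 + 1)) := min_le_right _ _
    rw [le_div_iff₀ (by positivity)] at h1
    nlinarith [mul_pos hQ0 hLam0, mul_pos (mul_pos hQ0 hLam0) hδ₂0]
  obtain ⟨f, hf1, hfo, hfα, hfc, ⟨v, hv⟩, -⟩ := hW (min δ₁ δ₂) (lt_min hδ₁0 hδ₂0) (insert c S) (r * r)
    ⟨r, by rw [hrs]⟩ hr1
  obtain ⟨w₀, hw₀u, hw₀⟩ := hS f (fun g => (hf1 g).2) hfo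
    (fun g h => (hfα g h).le.trans (min_le_left _ _))
    (fun a ha g => (hfc a (Finset.mem_insert_of_mem ha) g).le.trans (min_le_left _ _))
  set F : A := ∑ g, f g with hF
  have hFn : ‖F‖ ≤ n := by
    calc ‖F‖ ≤ ∑ g : G, ‖f g‖ := norm_sum_le _ _
      _ ≤ ∑ g : G, (1 : ℝ) := by gcongr with g _; exact (hf1 g).2
      _ = n := by simp [hn]
  have hFc : ‖F * c - c * F‖ ≤ n * δ₂ := by
    rw [hF, Finset.sum_mul, Finset.mul_sum, ← Finset.sum_sub_distrib]
    calc _ ≤ ∑ g : G, ‖f g * c - c * f g‖ := norm_sum_le _ _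
      _ ≤ ∑ g : G, δ₂ := by
          gcongr with g _
          exact (hfc c (Finset.mem_insert_self _ _) g).le.trans (min_le_right _ _)
      _ = n * δ₂ := by simp [hn]
  obtain ⟨N, hN⟩ := (Metric.tendsto_atTop.1 hv) δ₂ hδ₂0
  have hN := hN N le_rfl
  set V : A := v N with hV
  rw [dist_eq_norm] at hN
  -- the nilpotents
  set z : A := r * star V * (1 - c) with hz
  set z' : A := (1 - c) * (1 + F) * V * r with hz'
  have hone : ‖(1 : A)‖ ≤ 1 := norm_one_le
  have hVr : ‖V * r‖ ≤ n + 2 := by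
    have h1 : ‖V * r‖ * ‖V * r‖ = ‖V * (r * r) * star V‖ := by
      rw [← CStarRing.norm_self_mul_star, star_mul, hrs]
      simp only [mul_assoc]
    have h2 : ‖V * (r * r) * star V‖ ≤ n + 2 := by
      calc ‖V * (r * r) * star V‖ = ‖(V * (r * r) * star V - (1 - F)) + (1 - F)‖ := by
            rw [sub_add_cancel]
        _ ≤ ‖V * (r * r) * star V - (1 - F)‖ + ‖1 - F‖ := norm_add_le _ _
        _ ≤ 1 + (1 + n) := by
            gcongr
            · exact hN.le.trans hδ₂1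
            · exact (norm_sub_le _ _).trans (add_le_add hone hFn)
        _ = n + 2 := by ring
    rw [← h1] at h2
    nlinarith [norm_nonneg (V * r)]
  have hrV : ‖r * star V‖ ≤ n + 2 := by
    have : r * star V = star (V * r) := by rw [star_mul, hrs]
    rw [this, norm_star]; exact hVr
  have hzn : ‖z‖ ≤ K := by
    calc ‖z‖ ≤ ‖r * star V‖ * ‖1 - c‖ := norm_mul_le _ _
      _ ≤ (n + 2) * 1 := by gcongr
      _ ≤ K := by rw [hK]; nlinarith
  have hzn' : ‖z'‖ ≤ K := by
    calc ‖z'‖ = ‖(1 - c) * (1 + F) * (V * r)‖ := by rw [hz']; simp only [mul_assoc]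
      _ ≤ ‖1 - c‖ * ‖1 + F‖ * ‖V * r‖ := by
          refine (norm_mul_le _ _).trans ?_
          gcongr
          exact norm_mul_le _ _
      _ ≤ 1 * (1 + n) * (n + 2) := by
          gcongr
          exact (norm_add_le _ _).trans (add_le_add hone hFn)
      _ ≤ K := by rw [hK]; nlinarith
  have hcr0 : (1 - c) * r = 0 := by rw [sub_mul, one_mul, hcr, sub_self]
  have hrc0 : r * (1 - c) = 0 := by rw [mul_sub, mul_one, hrc, sub_self]
  have hzz : z * z = 0 := by
    calc z * z = r * star V * ((1 - c) * r) * star V * (1 - c) := by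
          rw [hz]; simp only [mul_assoc]
      _ = 0 := by rw [hcr0]; simp
  have hzz' : z' * z' = 0 := by
    calc z' * z' = (1 - c) * (1 + F) * V * (r * (1 - c)) * (1 + F) * V * r := by
          rw [hz']; simp only [mul_assoc]
      _ = 0 := by rw [hrc0]; simp
  have hbr : b * cp.ι r = 0 := by rw [← hcr, map_mul, ← mul_assoc, hbc, zero_mul]
  have hrb : cp.ι r * b = 0 := by rw [← hrc, map_mul, mul_assoc, hcb, mul_zero]
  have hbz : b * cp.ι z = 0 := by
    rw [hz, map_mul, map_mul, ← mul_assoc, ← mul_assoc, hbr, zero_mul, zero_mul]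
  have hzb : cp.ι z' * b = 0 := by
    rw [hz', map_mul, mul_assoc, hrb, mul_zero]
  have hid := alg_identity b (cp.ι z) (cp.ι z') lam e hlam0.ne' hbz hzb
    (by rw [← map_mul, hzz, map_zero]) (by rw [← map_mul, hzz', map_zero])
  -- main estimate
  set D : B := b + lam • (1 : B) + Lam • (cp.ι z' * cp.ι z) with hD
  have hz'z : ‖z' * z - (1 - c) * (1 - c) * (1 - F ^ 2)‖ ≤ (n + 1) * δ₂ + 2 * n ^ 2 * δ₂ := by
    have e1 : z' * z - (1 - c) * (1 - c) * (1 - F ^ 2) =
        (1 - c) * (1 + F) * (V * (r * r) * star V - (1 - F)) * (1 - c)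
        + (1 - c) * (F * (F * c - c * F) + (F * c - c * F) * F) := by
      rw [hz, hz']
      noncomm_ring
    rw [e1]
    calc _ ≤ ‖(1 - c) * (1 + F) * (V * (r * r) * star V - (1 - F)) * (1 - c)‖ +
          ‖(1 - c) * (F * (F * c - c * F) + (F * c - c * F) * F)‖ := norm_add_le _ _
      _ ≤ ‖1 - c‖ * ‖1 + F‖ * ‖V * (r * r) * star V - (1 - F)‖ * ‖1 - c‖ +
          ‖1 - c‖ * (‖F‖ * ‖F * c - c * F‖ + ‖F * c - c * F‖ * ‖F‖) := by
          gcongr
          · refine (norm_mul_le _ _).trans ?_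
            gcongr
            refine (norm_mul_le _ _).trans ?_
            gcongr
            exact norm_mul_le _ _
          · refine (norm_mul_le _ _).trans ?_
            gcongr
            refine (norm_add_le _ _).trans ?_
            gcongr <;> exact norm_mul_le _ _
      _ ≤ 1 * (1 + n) * δ₂ * 1 + 1 * (n * (n * δ₂) + (n * δ₂) * n) := by
          gcongr
          exact (norm_add_le _ _).trans (add_le_add hone hFn)
      _ = _ := by ring
  have hDapprox : ‖Db * (1 + β * cp.ι (F ^ 2)) - D‖ ≤ Lam * ((n + 1) * δ₂ + 2 * n ^ 2 * δ₂) := by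
    have e1 : Db * (1 + β * cp.ι (F ^ 2)) - D =
        -(Lam • cp.ι (z' * z - (1 - c) * (1 - c) * (1 - F ^ 2))) := by
      have h1 : Db * β = -(Lam • cp.ι ((1 - c) * (1 - c))) := by
        rw [hβ, mul_neg, mul_smul_comm, ← mul_assoc, ← hU, U.mul_inv, one_mul]
      have h2 : cp.ι (z' * z - (1 - c) * (1 - c) * (1 - F ^ 2)) =
          cp.ι z' * cp.ι z - cp.ι ((1 - c) * (1 - c)) * (1 - cp.ι (F ^ 2)) := by
        rw [map_sub, map_mul cp.ι z' z, map_mul cp.ι ((1 - c) * (1 - c)) (1 - F ^ 2),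
          map_sub cp.ι 1, map_one]
      rw [h2, mul_add, mul_one, ← mul_assoc, h1, hD, hDb, hιP]
      generalize cp.ι ((1 - c) * (1 - c)) = q
      generalize cp.ι (F ^ 2) = p
      generalize cp.ι z' * cp.ι z = y
      rw [neg_mul, smul_mul_assoc, mul_sub, mul_one, smul_sub, smul_sub]
      abel
    rw [e1, norm_neg, norm_smul, Real.norm_of_nonneg hLam0.le]
    gcongr
    exact (cp.norm_ι_le _).trans hz'z
  -- the unit
  have hDw : ‖Db * w₀ - D‖ ≤ ‖Db‖ * η + Lam * ((n + 1) * δ₂ + 2 * n ^ 2 * δ₂) := by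
    have e1 : Db * w₀ - D = Db * (w₀ - (1 + β * cp.ι (F ^ 2))) + (Db * (1 + β * cp.ι (F ^ 2)) - D) := by
      noncomm_ring
    rw [e1]
    refine (norm_add_le _ _).trans (add_le_add ?_ hDapprox)
    refine (norm_mul_le _ _).trans ?_
    gcongr
  set ν : B := (e / lam) • cp.ι z with hν
  set ν' : B := (e / lam) • cp.ι z' with hν'
  have hνν : ν * ν = 0 := by
    rw [hν, smul_mul_smul_comm, ← map_mul, hzz, map_zero, smul_zero]
  have hνν' : ν' * ν' = 0 := by
    rw [hν', smul_mul_smul_comm, ← map_mul, hzz', map_zero, smul_zero]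
  have hu1 : IsUnit (1 + ν) := ⟨⟨1 + ν, 1 - ν, by
    have : (1 + ν) * (1 - ν) = 1 - ν * ν := by noncomm_ring
    rw [this, hνν, sub_zero], by
    have : (1 - ν) * (1 + ν) = 1 - ν * ν := by noncomm_ring
    rw [this, hνν, sub_zero]⟩, rfl⟩
  have hu2 : IsUnit (1 - ν') := ⟨⟨1 - ν', 1 + ν', by
    have : (1 - ν') * (1 + ν') = 1 - ν' * ν' := by noncomm_ring
    rw [this, hνν', sub_zero], by
    have : (1 + ν') * (1 - ν') = 1 - ν' * ν' := by noncomm_ring
    rw [this, hνν', sub_zero]⟩, rfl⟩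
  have hνn : ‖ν‖ ≤ e / lam * K := by
    rw [hν, norm_smul, Real.norm_of_nonneg (by positivity)]
    gcongr
    exact (cp.norm_ι_le _).trans hzn
  have hνn' : ‖ν'‖ ≤ e / lam * K := by
    rw [hν', norm_smul, Real.norm_of_nonneg (by positivity)]
    gcongr
    exact (cp.norm_ι_le _).trans hzn'
  refine ⟨(1 - ν') * (Db * w₀) * (1 + ν), (hu2.mul ((hU ▸ U.isUnit).mul hw₀u)).mul hu1, ?_⟩
  have e2 : (1 - ν') * (Db * w₀) * (1 + ν) - b =
      (1 - ν') * (Db * w₀ - D) * (1 + ν) + (lam • (1 : B) + e • (cp.ι z - cp.ι z')) := by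
    have h1 : (1 - ν') * D * (1 + ν) = b + lam • (1 : B) + e • (cp.ι z - cp.ι z') := hid
    have h2 : (1 - ν') * (Db * w₀) * (1 + ν) =
      (1 - ν') * (Db * w₀ - D) * (1 + ν) + (1 - ν') * D * (1 + ν) := by noncomm_ring
    rw [h2, h1]
    abel
  rw [e2]
  have hoB : ‖(1 : B)‖ ≤ 1 := norm_one_le
  calc _ ≤ ‖(1 - ν') * (Db * w₀ - D) * (1 + ν)‖ + ‖lam • (1 : B) + e • (cp.ι z - cp.ι z')‖ :=
        norm_add_le _ _
    _ ≤ (1 + e / lam * K) * (‖Db‖ * η + Lam * ((n + 1) * δ₂ + 2 * n ^ 2 * δ₂)) * (1 + e / lam * K)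
        + (lam * 1 + e * (K + K)) := by
        gcongr
        · refine (norm_mul_le _ _).trans ?_
          gcongr
          · refine (norm_mul_le _ _).trans ?_
            gcongr
            exact (norm_sub_le _ _).trans (add_le_add hoB hνn')
          · exact (norm_add_le _ _).trans (add_le_add hoB hνn)
        · refine (norm_add_le _ _).trans ?_
          rw [norm_smul, norm_smul, Real.norm_of_nonneg hlam0.le, Real.norm_of_nonneg he0.le]
          gcongr
          refine (norm_sub_le _ _).trans ?_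
          gcongr
          · exact (cp.norm_ι_le _).trans hzn
          · exact (cp.norm_ι_le _).trans hzn'
    _ = Q * (‖Db‖ * η) + Q * (Lam * ((n + 1) * δ₂ + 2 * n ^ 2 * δ₂)) + (lam + 2 * K * e) := by
        rw [hQ]; ring
    _ ≤ ε / 8 + ε / 8 + (ε / 4 + ε / 4) := by
        gcongr
        · have : Q * (‖Db‖ * η) = (ε / 8) * (‖Db‖ / (‖Db‖ + 1)) := by
            rw [hη]; field_simp
          rw [this]
          have h3 : ‖Db‖ / (‖Db‖ + 1) ≤ 1 := by
            rw [div_le_one (by positivity)]; linarith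
          nlinarith
        · rw [he]; field_simp; norm_num
    _ ≤ ε := by linarith

end
end CP

end Pool.Agent.MP_739d9d_an
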