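import Mathlib
import Pool.Agent.MP_739d9d_an.StepC
import Pool.Agent.MP_739d9d_an.Gen2

set_option autoImplicit false
set_option linter.unusedSectionVars false

open Filter Topology

namespace Pool.Agent.MP_739d9d_an

namespace CP
section
variable {A G : Type*} [CStarAlgebra A] [PartialOrder A] [StarOrderedRing A]
    [Group G] [Fintype G] [DecidableEq G] {α : G → (A ≃⋆ₐ[ℂ] A)}
    {B : Type*} [CStarAlgebra B] [PartialOrder B] [StarOrderedRing B] (cp : CP α B)

lemma co_of_eq {b : B} {a : G → A} (h : ∑ g, cp.ι (a g) * cp.u g = b) : cp.co b = a := by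
  rw [← h]; exact cp.co_uniq a

lemma co_bimod (a b' : A) (b : B) :
    cp.co (cp.ι a * b * cp.ι b') = fun g => a * cp.co b g * α g b' := by
  apply cp.co_of_eq
  conv_rhs => rw [← cp.co_spec b]
  rw [Finset.mul_sum, Finset.sum_mul]
  refine Finset.sum_congr rfl fun g _ => ?_
  rw [mul_assoc (cp.ι a), mul_assoc (cp.ι (cp.co b g)), cp.u_comm]
  simp only [map_mul, mul_assoc]

lemma u_star_comm (g : G) (a : A) : cp.u g⁻¹ * cp.ι a = cp.ι (α g⁻¹ a) * cp.u g⁻¹ := cp.u_comm _ _

lemma co_star_mul_self (y : B) :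
    cp.co (star y * y) 1 = ∑ g, α g⁻¹ (star (cp.co y g) * cp.co y g) := by
  have h : cp.co (star y * y) = fun k => ∑ g, α g⁻¹ (star (cp.co y g) * cp.co y (g * k)) := by
    apply cp.co_of_eq
    conv_rhs => rw [← cp.co_spec y]
    rw [star_sum, Finset.sum_mul]
    have h1 : ∀ k, cp.ι (∑ g, α g⁻¹ (star (cp.co y g) * cp.co y (g * k))) * cp.u k =
        ∑ g, cp.ι (α g⁻¹ (star (cp.co y g) * cp.co y (g * k))) * cp.u k := by
      intro k; rw [map_sum, Finset.sum_mul]
    simp_rw [h1]
    rw [Finset.sum_comm]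
    refine Finset.sum_congr rfl fun g _ => ?_
    rw [Finset.mul_sum]
    refine Fintype.sum_equiv (Equiv.mulLeft g) _ _ fun k => ?_
    simp only [Equiv.coe_mulLeft]
    rw [star_mul, cp.u_star, ← map_star cp.ι]
    have e1 : cp.u k = cp.u g⁻¹ * cp.u (g * k) := by rw [cp.u_mul, inv_mul_cancel_left]
    rw [e1, ← mul_assoc, ← cp.u_comm, map_mul]
    simp only [mul_assoc]
  rw [h]
  simp

lemma E_nonneg {x : B} (hx : 0 ≤ x) : 0 ≤ cp.co x 1 := by
  obtain ⟨y, rfl⟩ := CStarAlgebra.nonneg_iff_eq_star_mul_self.1 hx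
  rw [co_star_mul_self]
  apply Finset.sum_nonneg
  intro g _
  rw [map_mul, map_star]
  exact star_mul_self_nonneg _

lemma E_ne_zero {x : B} (hx : 0 ≤ x) (hne : x ≠ 0) : cp.co x 1 ≠ 0 := by
  obtain ⟨y, rfl⟩ := CStarAlgebra.nonneg_iff_eq_star_mul_self.1 hx
  rw [co_star_mul_self]
  intro h0
  rw [Finset.sum_eq_zero_iff_of_nonneg] at h0
  · apply hne
    have hy : y = 0 := by
      rw [← cp.co_spec y]
      apply Finset.sum_eq_zero
      intro g _
      have := h0 g (Finset.mem_univ _)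
      have h1 : star (cp.co y g) * cp.co y g = 0 := by
        apply EquivLike.injective (α g⁻¹)
        rw [this, map_zero]
      rw [CStarRing.star_mul_self_eq_zero_iff] at h1
      rw [h1, map_zero, zero_mul]
    rw [hy, mul_zero]
  · intro g _
    rw [map_mul, map_star]
    exact star_mul_self_nonneg _

lemma compress (hα1 : ∀ a : A, α 1 a = a) (y : B) (F : G → A) (g : G) {δ C : ℝ}
    (hC : ∀ k, ‖cp.co y k‖ ≤ C) (hF1 : ∀ g, ‖F g‖ ≤ 1) (hFo : ∀ g h, g ≠ h → F g * F h = 0)
    (hFα : ∀ g h, ‖α g (F h) - F (g * h)‖ ≤ δ)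
    (hFc : ∀ k, ‖F g * cp.co y k - cp.co y k * F g‖ ≤ δ) :
    ‖cp.ι (F g) * y * cp.ι (F g) - cp.ι (F g * cp.co y 1 * F g)‖ ≤
      Fintype.card G * ((C + 1) * δ) := by
  have hδ0 : 0 ≤ δ := (norm_nonneg _).trans (hFc 1)
  have hC0 : 0 ≤ C := (norm_nonneg _).trans (hC 1)
  have e1 : cp.ι (F g) * y * cp.ι (F g) = ∑ k, cp.ι (F g * cp.co y k * α k (F g)) * cp.u k := by
    conv_lhs => rw [← cp.co_spec (cp.ι (F g) * y * cp.ι (F g))]
    rw [cp.co_bimod]
  have e2 : cp.ι (F g * cp.co y 1 * F g) =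
      ∑ k, if k = 1 then cp.ι (F g * cp.co y k * α k (F g)) * cp.u k else 0 := by
    rw [Finset.sum_ite_eq' Finset.univ (1 : G)]
    simp [hα1, cp.u_one]
  rw [e1, e2, ← Finset.sum_sub_distrib]
  calc _ ≤ ∑ k : G, (C + 1) * δ := by
        refine (norm_sum_le _ _).trans ?_
        gcongr with k _
        split_ifs with hk
        · rw [sub_self, norm_zero]; positivity
        · rw [sub_zero]
          have h1 : F g * cp.co y k * α k (F g) =
              F g * cp.co y k * (α k (F g) - F (k * g)) +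
              (F g * cp.co y k - cp.co y k * F g) * F (k * g) := by
            have h2 : F g * F (k * g) = 0 := by
              apply hFo
              intro h
              apply hk
              rw [eq_comm, mul_eq_right] at h
              exact h
            have h3 : (F g * cp.co y k - cp.co y k * F g) * F (k * g) =
                F g * cp.co y k * F (k * g) := by
              rw [sub_mul, mul_assoc (cp.co y k), h2, mul_zero, sub_zero]
            rw [h3, mul_sub]; abel
          calc _ ≤ ‖cp.ι (F g * cp.co y k * α k (F g))‖ * ‖cp.u k‖ := norm_mul_le _ _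
            _ ≤ ‖F g * cp.co y k * α k (F g)‖ * 1 := by
                gcongr
                · exact cp.norm_ι_le _
                · exact cp.norm_u_le _
            _ ≤ ‖F g * cp.co y k * (α k (F g) - F (k * g))‖ +
              ‖(F g * cp.co y k - cp.co y k * F g) * F (k * g)‖ := by
                rw [mul_one, h1]; exact norm_add_le _ _
            _ ≤ 1 * C * δ + δ * 1 := by
                gcongr
                · refine (norm_mul_le _ _).trans ?_
                  gcongr
                  · refine (norm_mul_le _ _).trans ?_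
                    gcongr
                    · exact hF1 g
                    · exact hC k
                  · exact hFα k g
                · refine (norm_mul_le _ _).trans ?_
                  gcongr
                  · exact hFc k
                  · exact hF1 _
            _ = (C + 1) * δ := by ring
    _ = _ := by simp [Finset.sum_const, Finset.card_univ]

/-- from the tower, one of the levels sees `φ` almost isometrically -/
lemma exists_big_level (hW : WTRP α) (φ : A) (hφs : star φ = φ) (hφn : ‖φ‖ = 1) (S : Finset A)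
    {δ ε₂ : ℝ} (hδ : 0 < δ) (hε₂ : 0 < ε₂) :
    ∃ F : G → A, (∀ g, 0 ≤ F g ∧ ‖F g‖ ≤ 1) ∧ (∀ g h, g ≠ h → F g * F h = 0) ∧
      (∀ g h, ‖α g (F h) - F (g * h)‖ ≤ δ) ∧ (∀ a ∈ S, ∀ g, ‖F g * a - a * F g‖ ≤ δ) ∧
      ∃ g, 1 - ε₂ ≤ ‖F g * (φ * φ) * F g‖ := by
  classical
  set n : ℝ := (Fintype.card G : ℝ) with hn
  have hn0 : 0 ≤ n := Nat.cast_nonneg _
  have hφφ : ‖φ * φ‖ = 1 := by
    have : ‖φ * φ‖ = ‖star φ * φ‖ := by rw [hφs]
    rw [this, CStarRing.norm_star_mul_self, hφn, mul_one]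
  have hnt : Nontrivial A := by
    by_contra hn
    rw [not_nontrivial_iff_subsingleton] at hn
    have : ‖φ‖ = 0 := by rw [Subsingleton.elim φ 0, norm_zero]
    rw [this] at hφn; exact zero_ne_one hφn
  set δ' : ℝ := min δ (ε₂ / (n ^ 2 + 2)) with hδ'
  have hδ'0 : 0 < δ' := by positivity
  have hδ'2 : (1 + n ^ 2) * δ' < ε₂ := by
    have h1 : δ' ≤ ε₂ / (n ^ 2 + 2) := min_le_right _ _
    rw [le_div_iff₀ (by positivity)] at h1
    nlinarith
  obtain ⟨F, hF1, hFo, hFα, hFc, -, hFb⟩ := hW δ' hδ'0 (insert (φ * φ) S) (φ * φ)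
    ⟨φ, by rw [hφs]⟩ hφφ
  have hF0 : ∀ g, 0 ≤ F g := fun g => by
    obtain ⟨y, hy⟩ := (hF1 g).1
    rw [hy]; exact star_mul_self_nonneg _
  refine ⟨F, fun g => ⟨hF0 g, (hF1 g).2⟩, hFo, fun g h => (hFα g h).le.trans (min_le_left _ _),
    fun a ha g => (hFc a (Finset.mem_insert_of_mem ha) g).le.trans (min_le_left _ _), ?_⟩
  by_contra hcon
  push Not at hcon
  -- max over g
  set y : G → A := fun g => F g * (φ * φ) * F g with hy
  have hFs : ∀ g, star (F g) = F g := fun g => (hF0 g).isSelfAdjoint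
  have hε₂1 : ε₂ < 1 := by
    have h1 := hcon 1
    have h2 := norm_nonneg (F 1 * (φ * φ) * F 1)
    linarith
  have hsum : ‖∑ g, y g‖ ≤ 1 - ε₂ := by
    apply norm_orth_sum_le y
    · intro g
      rw [isSelfAdjoint_iff, hy]
      simp only [star_mul, hφs, hFs, mul_assoc]
    · intro g h hgh
      calc y g * y h = F g * (φ * φ) * (F g * F h) * (φ * φ) * F h := by
            simp only [hy, mul_assoc]
        _ = 0 := by rw [hFo g h hgh]; simp
    · linarith
    · intro g; exact (hcon g).le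
  have hoff : ‖(∑ g, F g) * (φ * φ) * (∑ g, F g) - ∑ g, y g‖ ≤ n ^ 2 * δ' := by
    have e1 : (∑ g, F g) * (φ * φ) * (∑ g, F g) - ∑ g, y g =
        ∑ g, ∑ h, (if g = h then 0 else F g * (φ * φ) * F h) := by
      rw [Finset.sum_mul, Finset.sum_mul, ← Finset.sum_sub_distrib]
      refine Finset.sum_congr rfl fun g _ => ?_
      rw [Finset.mul_sum]
      have : y g = ∑ h, if g = h then F g * (φ * φ) * F h else 0 := by
        rw [Finset.sum_ite_eq]; simp [hy]
      rw [this, ← Finset.sum_sub_distrib]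
      refine Finset.sum_congr rfl fun h _ => ?_
      split_ifs <;> simp
    rw [e1]
    calc _ ≤ ∑ g : G, ∑ h : G, δ' := by
          refine (norm_sum_le _ _).trans ?_
          gcongr with g _
          refine (norm_sum_le _ _).trans ?_
          gcongr with h _
          split_ifs with hgh
          · rw [norm_zero]; exact hδ'0.le
          · have e2 : F g * (φ * φ) * F h = F g * ((φ * φ) * F h - F h * (φ * φ)) := by
              rw [mul_sub, ← mul_assoc (F g) (F h), hFo g h hgh, zero_mul, sub_zero, mul_assoc]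
            rw [e2]
            calc _ ≤ ‖F g‖ * ‖(φ * φ) * F h - F h * (φ * φ)‖ := norm_mul_le _ _
              _ ≤ 1 * δ' := by
                  gcongr
                  · exact (hF1 g).2
                  · rw [← norm_neg, neg_sub]
                    exact (hFc _ (Finset.mem_insert_self _ _) h).le
              _ = δ' := one_mul _
      _ = _ := by simp [Finset.sum_const, Finset.card_univ, hn]; ring
  have hfin : ‖(∑ g, F g) * (φ * φ) * (∑ g, F g)‖ ≤ 1 - ε₂ + n ^ 2 * δ' := by
    calc _ = ‖∑ g, y g + ((∑ g, F g) * (φ * φ) * (∑ g, F g) - ∑ g, y g)‖ := by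
          congr 1; abel
      _ ≤ _ := (norm_add_le _ _).trans (add_le_add hsum hoff)
  nlinarith

/-- The key placement lemma. -/
theorem place (hα1 : ∀ a : A, α 1 a = a) (hW : WTRP α) (y : B) (hy : 0 ≤ y) (c₀ : A)
    (hc₀s : star c₀ = c₀) (hc₀n : ‖c₀‖ ≤ 1) (hyc : cp.co y 1 * c₀ ≠ 0) :
    ∃ (V : B) (c c' : A) (w : B), IsUnit V ∧ 0 ≤ c ∧ c ≠ 0 ∧ c = c₀ * c' ∧
      V * cp.ι c = y * w := by
  classical
  set q := cp.co y 1 with hq
  have hq0 : 0 ≤ q := cp.E_nonneg hy
  obtain ⟨φ, φ', τ, hτ0, hτ1, hφs, hφn, hφc, hφq⟩ := exists_phi q c₀ hq0 hc₀s hc₀n hyc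
  set n : ℝ := (Fintype.card G : ℝ) with hn
  have hn0 : 0 ≤ n := Nat.cast_nonneg _
  set C : ℝ := ∑ k, ‖cp.co y k‖ with hC
  have hC0 : 0 ≤ C := Finset.sum_nonneg fun k _ => norm_nonneg _
  have hCk : ∀ k, ‖cp.co y k‖ ≤ C := fun k =>
    Finset.single_le_sum (f := fun k => ‖cp.co y k‖) (fun k _ => norm_nonneg _) (Finset.mem_univ k)
  set R : ℝ := ‖y‖ + ‖q‖ with hR
  have hR0 : 0 ≤ R := by positivity
  -- choose ε₂
  set ρ : ℝ := min 1 (τ / (8 * (R + 1))) with hρ
  have hρ0 : 0 < ρ := by positivity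
  have hρR : 2 * R * ρ ≤ τ / 4 := by
    have h1 : ρ ≤ τ / (8 * (R + 1)) := min_le_right _ _
    rw [le_div_iff₀ (by positivity)] at h1
    nlinarith
  set ε₂ : ℝ := ρ ^ 2 / 5 with hε₂
  have hε₂0 : 0 < ε₂ := by positivity
  have hρ1 : ρ ≤ 1 := min_le_left _ _
  have hε₂3 : 3 * ε₂ < 1 := by rw [hε₂]; nlinarith
  set δ : ℝ := min ε₂ (τ / (4 * (n * (C + 1) + 1))) with hδ
  have hδ0 : 0 < δ := by positivity
  have hδn : n * ((C + 1) * δ) ≤ τ / 4 := by
    have h1 : δ ≤ τ / (4 * (n * (C + 1) + 1)) := min_le_right _ _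
    rw [le_div_iff₀ (by positivity)] at h1
    nlinarith
  obtain ⟨F, hF1, hFo, hFα, hFc, g, hg⟩ := exists_big_level hW φ hφs hφn
    (insert φ (Finset.univ.image (cp.co y))) hδ0 hε₂0
  have hcomm : ‖F g * φ - φ * F g‖ ≤ δ := hFc φ (Finset.mem_insert_self _ _) g
  obtain ⟨l, c, l', c', hls, hln, hc0, hcne, hlc, hll', hcc', hl⟩ :=
    exists_l φ (F g) hφs hφn (hF1 g).1 (hF1 g).2 hε₂0 hε₂3 (min_le_left _ _) hcomm hg
  have hlρ : ‖(1 - F g) * l‖ ≤ ρ := by
    have h1 : ‖(1 - F g) * l‖ ^ 2 ≤ ρ ^ 2 := by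
      refine hl.trans (le_of_eq ?_)
      rw [hε₂]; ring
    exact abs_le_of_sq_le_sq' h1 hρ0.le |>.2
  have hFs : star (F g) = F g := (hF1 g).1.isSelfAdjoint
  have hlρ' : ‖l * (1 - F g)‖ ≤ ρ := by
    have : l * (1 - F g) = star ((1 - F g) * l) := by
      rw [star_mul, hls, star_sub, star_one, hFs]
    rw [this, norm_star]; exact hlρ
  -- lower bound for l q l
  have hlql : τ • (l * l) ≤ l * q * l := by
    have e0 : l = star l' * φ := by
      have := congrArg star hll'
      rw [star_mul, hls, hφs] at this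
      exact this
    have e1 : l * q * l = star l' * (φ * q * φ) * l' := by
      calc l * q * l = (star l' * φ) * q * (φ * l') := by rw [← e0, ← hll']
        _ = _ := by simp only [mul_assoc]
    have e2 : l * l = star l' * (φ * φ) * l' := by
      calc l * l = (star l' * φ) * (φ * l') := by rw [← e0, ← hll']
        _ = _ := by simp only [mul_assoc]
    rw [e1, e2, ← smul_mul_assoc, ← mul_smul_comm]
    exact conj_mono hφq
  have hll : l * l ≤ 1 := mul_self_le_one_of_norm hls hln
  have hP : τ • (1 : A) ≤ 1 - l * l + l * q * l := by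
    calc τ • (1 : A) ≤ 1 - (1 - τ) • (l * l) := by
          rw [le_sub_iff_add_le]
          calc τ • (1 : A) + (1 - τ) • (l * l) ≤ τ • (1 : A) + (1 - τ) • (1 : A) := by
                gcongr
            _ = 1 := by rw [← add_smul]; simp
      _ = 1 - l * l + τ • (l * l) := by rw [sub_smul, one_smul]; abel
      _ ≤ _ := by gcongr
  -- the error term
  set er : B := cp.ι l * y * cp.ι l - cp.ι (l * q * l) with her
  have hern : ‖er‖ ≤ τ / 2 := by
    have hlι : ‖cp.ι l‖ ≤ 1 := (cp.norm_ι_le _).trans hln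
    have hFι : ‖cp.ι (F g)‖ ≤ 1 := (cp.norm_ι_le _).trans (hF1 g).2
    have c1 := cp.compress hα1 y F g hCk (fun g => (hF1 g).2) hFo hFα
      (fun k => hFc _ (Finset.mem_insert_of_mem (Finset.mem_image_of_mem _ (Finset.mem_univ k))) g)
    have e1 : er = cp.ι (l * (1 - F g)) * y * cp.ι l + cp.ι (l * F g) * y * cp.ι ((1 - F g) * l)
        + cp.ι l * (cp.ι (F g) * y * cp.ι (F g) - cp.ι (F g * q * F g)) * cp.ι l
        - cp.ι (l * (1 - F g) * q * l + l * F g * q * ((1 - F g) * l)) := by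
      rw [her]
      simp only [map_mul, map_sub, map_one, map_add]
      noncomm_ring
    rw [e1]
    have b1 : ‖cp.ι (l * (1 - F g)) * y * cp.ι l‖ ≤ ρ * ‖y‖ * 1 := by
      refine (norm_mul_le _ _).trans ?_
      gcongr
      refine (norm_mul_le _ _).trans ?_
      gcongr
      exact (cp.norm_ι_le _).trans hlρ'
    have b2 : ‖cp.ι (l * F g) * y * cp.ι ((1 - F g) * l)‖ ≤ 1 * ‖y‖ * ρ := by
      refine (norm_mul_le _ _).trans ?_
      gcongr
      · refine (norm_mul_le _ _).trans ?_
        gcongr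
        refine (cp.norm_ι_le _).trans ((norm_mul_le _ _).trans ?_)
        calc ‖l‖ * ‖F g‖ ≤ 1 * 1 := by gcongr; exact (hF1 g).2
          _ = 1 := one_mul 1
      · exact (cp.norm_ι_le _).trans hlρ
    have b3 : ‖cp.ι l * (cp.ι (F g) * y * cp.ι (F g) - cp.ι (F g * q * F g)) * cp.ι l‖ ≤
        1 * (n * ((C + 1) * δ)) * 1 := by
      refine (norm_mul_le _ _).trans ?_
      gcongr
      refine (norm_mul_le _ _).trans ?_
      gcongr
    have b4 : ‖cp.ι (l * (1 - F g) * q * l + l * F g * q * ((1 - F g) * l))‖ ≤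
        ρ * ‖q‖ * 1 + 1 * ‖q‖ * ρ := by
      refine (cp.norm_ι_le _).trans ((norm_add_le _ _).trans ?_)
      gcongr
      · refine (norm_mul_le _ _).trans ?_
        gcongr
        refine (norm_mul_le _ _).trans ?_
        gcongr
      · refine (norm_mul_le _ _).trans ?_
        gcongr
        refine (norm_mul_le _ _).trans ?_
        gcongr
        refine (norm_mul_le _ _).trans ?_
        calc ‖l‖ * ‖F g‖ ≤ 1 * 1 := by gcongr; exact (hF1 g).2
          _ = 1 := one_mul 1
    calc _ ≤ (ρ * ‖y‖ * 1 + 1 * ‖y‖ * ρ + 1 * (n * ((C + 1) * δ)) * 1) +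
          (ρ * ‖q‖ * 1 + 1 * ‖q‖ * ρ) := by
          refine (norm_sub_le _ _).trans (add_le_add ?_ b4)
          refine (norm_add_le _ _).trans (add_le_add ?_ b3)
          exact (norm_add_le _ _).trans (add_le_add b1 b2)
      _ = 2 * R * ρ + n * ((C + 1) * δ) := by rw [hR]; ring
      _ ≤ τ / 4 + τ / 4 := add_le_add hρR hδn
      _ = τ / 2 := by ring
  have hqs : star q = q := hq0.isSelfAdjoint
  have hys : star y = y := hy.isSelfAdjoint
  have hersa : IsSelfAdjoint er := by
    rw [isSelfAdjoint_iff, her, star_sub, star_mul, star_mul, ← map_star, ← map_star, hls, hys,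
      star_mul, star_mul, hls, hqs]
    simp only [mul_assoc]
  -- V' is a unit
  have hV'u : IsUnit (1 - cp.ι l * (1 - y) * cp.ι l) := by
    have e1 : 1 - cp.ι l * (1 - y) * cp.ι l = cp.ι (1 - l * l + l * q * l) + er := by
      rw [her]
      simp only [map_mul, map_sub, map_one, map_add]
      noncomm_ring
    rw [e1]
    have h1 : (τ / 2) • (1 : B) ≤ cp.ι (1 - l * l + l * q * l) + er := by
      have s1 : τ • (1 : B) ≤ cp.ι (1 - l * l + l * q * l) := by
        have := OrderHomClass.mono cp.ι hP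
        rwa [cp.ι_rsmul, map_one] at this
      have s2 : -((τ / 2) • (1 : B)) ≤ er := by
        have s3 := hersa.neg_algebraMap_norm_le_self
        refine le_trans ?_ s3
        rw [Algebra.algebraMap_eq_smul_one, neg_le_neg_iff]
        exact smul_le_smul_of_nonneg_right hern zero_le_one
      calc (τ / 2) • (1 : B) = τ • (1 : B) + -((τ / 2) • (1 : B)) := by
            rw [← sub_eq_add_neg, ← sub_smul]; congr 1; ring
        _ ≤ _ := add_le_add s1 s2
    exact CStarAlgebra.isUnit_of_le _ h1 (IsStrictlyPositive.smul (by positivity)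
      isStrictlyPositive_one)
  have hVu : IsUnit (1 - (1 - y) * cp.ι l * cp.ι l) := by
    have e2 : 1 - cp.ι l * (1 - y) * cp.ι l = 1 - cp.ι l * ((1 - y) * cp.ι l) := by
      simp only [mul_assoc]
    rw [e2] at hV'u
    obtain ⟨v, hv⟩ := hV'u
    -- 1 - ab unit → 1 - ba unit with a = ι l, b = (1-y) ι l
    set a := cp.ι l
    set b := (1 - y) * cp.ι l
    have hinv : ∀ v' : B, (1 - a * b) * v' = 1 → v' * (1 - a * b) = 1 →
        IsUnit (1 - b * a) := by
      intro v' h1 h2
      refine ⟨⟨1 - b * a, 1 + b * v' * a, ?_, ?_⟩, rfl⟩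
      · have : (1 - b * a) * (1 + b * v' * a) = 1 - b * a + b * ((1 - a * b) * v') * a := by
          noncomm_ring
        rw [this, h1]; noncomm_ring
      · have : (1 + b * v' * a) * (1 - b * a) = 1 - b * a + b * (v' * (1 - a * b)) * a := by
          noncomm_ring
        rw [this, h2]; noncomm_ring
    exact hinv ↑v⁻¹ (by rw [← hv, v.mul_inv]) (by rw [← hv, v.inv_mul])
  refine ⟨1 - (1 - y) * cp.ι l * cp.ι l, c, φ' * c', cp.ι c, hVu, hc0, hcne, ?_, ?_⟩
  · rw [hcc', hφc, mul_assoc]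
  · have h1 : cp.ι l * cp.ι c = cp.ι c := by rw [← map_mul, hlc]
    rw [sub_mul, one_mul, mul_assoc, h1, mul_assoc, h1, sub_mul, one_mul, sub_sub_cancel]

end
end CP

end Pool.Agent.MP_739d9d_an
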