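import Mathlib
import Pool.Agent.MP_739d9d_an.StepB
import Pool.Agent.MP_739d9d_an.MatrixSR

set_option autoImplicit false
set_option linter.unusedSectionVars false

open Filter Topology

namespace Pool.Agent.MP_739d9d_an

section LU
variable {B : Type*} [CStarAlgebra B]

lemma LU_of_isUnit {b : B} (h : IsUnit b) : LU b := fun ε hε => ⟨b, h, by simpa using hε.le⟩

lemma LU_of_near {b : B} (h : ∀ ε : ℝ, 0 < ε → ∃ b', LU b' ∧ ‖b' - b‖ ≤ ε) : LU b := by
  intro ε hε
  obtain ⟨b', hb', hn⟩ := h (ε / 2) (by positivity)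
  obtain ⟨w, hw, hwn⟩ := hb' (ε / 2) (by positivity)
  refine ⟨w, hw, ?_⟩
  calc ‖w - b‖ ≤ ‖w - b'‖ + ‖b' - b‖ := norm_sub_le_norm_sub_add_norm_sub _ _ _
    _ ≤ ε / 2 + ε / 2 := add_le_add hwn hn
    _ = ε := by ring

lemma LU_mul {b u v : B} (h : LU b) (hu : IsUnit u) (hv : IsUnit v) : LU (u * b * v) := by
  intro ε hε
  have hpos : 0 < ‖u‖ * ‖v‖ + 1 := by positivity
  obtain ⟨w, hw, hwn⟩ := h (ε / (‖u‖ * ‖v‖ + 1)) (by positivity)
  refine ⟨u * w * v, (hu.mul hw).mul hv, ?_⟩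
  have e : u * w * v - u * b * v = u * (w - b) * v := by noncomm_ring
  rw [e]
  calc ‖u * (w - b) * v‖ ≤ ‖u‖ * ‖w - b‖ * ‖v‖ := by
        refine (norm_mul_le _ _).trans ?_
        gcongr
        exact norm_mul_le _ _
    _ ≤ ‖u‖ * (ε / (‖u‖ * ‖v‖ + 1)) * ‖v‖ := by gcongr
    _ = ε * ((‖u‖ * ‖v‖) / (‖u‖ * ‖v‖ + 1)) := by ring
    _ ≤ ε * 1 := by
        gcongr
        rw [div_le_one hpos]; linarith
    _ = ε := mul_one _

lemma LU_of_mul {b u v : B} (hu : IsUnit u) (hv : IsUnit v) (h : LU (u * b * v)) : LU b := by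
  obtain ⟨u, rfl⟩ := hu
  obtain ⟨v, rfl⟩ := hv
  have := LU_mul h (u⁻¹).isUnit (v⁻¹).isUnit
  have e : (↑u⁻¹ : B) * (↑u * b * ↑v) * (↑v⁻¹ : B) = b := by
    calc (↑u⁻¹ : B) * (↑u * b * ↑v) * (↑v⁻¹ : B) = (↑u⁻¹ * ↑u) * b * (↑v * ↑v⁻¹) := by
          simp only [mul_assoc]
      _ = b := by rw [u.inv_mul, v.mul_inv, one_mul, mul_one]
  rwa [e] at this

end LU

section cfcC
variable {A : Type*} [CStarAlgebra A] [PartialOrder A] [StarOrderedRing A]

/-- from a nonzero positive element, get a local-unit pair. -/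
lemma exists_pair (c : A) (hc : 0 ≤ c) (hne : c ≠ 0) :
    ∃ c' r k : A, star c' = c' ∧ star r = r ∧ c' * r = r ∧ r * c' = r ∧ ‖r * r‖ = 1 ∧
      ‖1 - c'‖ ≤ 1 ∧ c' = c * k ∧ c' = k * c := by
  have hnt : Nontrivial A := ⟨⟨_, _, hne⟩⟩
  have hcsa : IsSelfAdjoint c := hc.isSelfAdjoint
  set m := ‖c‖ with hm
  have hm0 : 0 < m := norm_pos_iff.2 hne
  -- functions
  set K : ℝ → ℝ := fun t => (max t (m / 2))⁻¹ with hK
  have hKc : Continuous K := by
    apply Continuous.inv₀ (by fun_prop)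
    intro t
    have : 0 < max t (m / 2) := lt_max_of_lt_right (by positivity)
    exact this.ne'
  set R : ℝ → ℝ := fun t => max 0 (2 * t / m - 1) with hR
  have hRc : Continuous R := by fun_prop
  set r := cfc R c with hr
  set k := cfc K c with hk
  have hck : c * k = cfc (fun t => t * K t) c := self_mul_cfc hcsa K (by fun_prop)
  have hkc : k * c = cfc (fun t => K t * t) c := cfc_mul_self hcsa K (by fun_prop)
  have hcomm : c * k = k * c := by
    rw [hck, hkc]; congr 1; funext t; ring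
  have hspec : ∀ t ∈ spectrum ℝ c, 0 ≤ t ∧ t ≤ m := by
    intro t ht
    refine ⟨spectrum_nonneg_of_nonneg hc ht, ?_⟩
    have := spectrum.norm_le_norm_of_mem ht
    rw [Real.norm_eq_abs] at this
    exact (le_abs_self t).trans this
  have hKR : ∀ t, (t * K t) * R t = R t := by
    intro t
    simp only [hK, hR]
    rcases le_total t (m / 2) with h | h
    · have : 2 * t / m - 1 ≤ 0 := by
        rw [sub_nonpos, div_le_one hm0]; linarith
      rw [max_eq_left this, mul_zero]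
    · rw [max_eq_left h]
      have : t ≠ 0 := by linarith [half_pos hm0]
      field_simp
  have hcR : c * k * r = r := by
    rw [hck, hr, cfc_mul' _ _ (by fun_prop) (by fun_prop)]
    congr 1; funext t; exact hKR t
  have hrk : star r = r := star_cfc_real _ _
  have hks : star (c * k) = c * k := by
    rw [hck]; exact star_cfc_real _ _
  refine ⟨c * k, r, k, hks, hrk, hcR, ?_, ?_, ?_, rfl, hcomm⟩
  · have := congrArg star hcR
    rw [star_mul, hks, hrk] at this
    exact this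
  · have e : ‖r * r‖ = ‖r‖ * ‖r‖ := by
      rw [← CStarRing.norm_star_mul_self, hrk]
    have hr1 : ‖r‖ = 1 := by
      apply le_antisymm
      · apply norm_cfc_le zero_le_one
        intro t ht
        obtain ⟨h0, h1⟩ := hspec t ht
        rw [Real.norm_of_nonneg (le_max_left _ _)]
        apply max_le zero_le_one
        rw [sub_le_iff_le_add, div_le_iff₀ hm0]
        linarith
      · have hmem : m ∈ spectrum ℝ c := CStarAlgebra.norm_mem_spectrum_of_nonneg hc
        have h3 := norm_apply_le_norm_cfc R c hmem (by fun_prop) hcsa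
        have h4 : R m = 1 := by
          simp only [hR]
          have : 2 * m / m - 1 = 1 := by field_simp; norm_num
          rw [this]; simp
        rw [h4, norm_one] at h3
        exact h3
    rw [e, hr1, one_mul]
  · have hKc' : ContinuousOn (fun t => t * K t) (spectrum ℝ c) :=
      (continuous_id.mul hKc).continuousOn
    have e1 : 1 - c * k = cfc (fun t => 1 - t * K t) c := by
      rw [cfc_sub (fun _ => (1 : ℝ)) (fun t => t * K t) c continuousOn_const hKc',
        cfc_const_one ℝ c, hck]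
    rw [e1]
    apply norm_cfc_le zero_le_one
    intro t ht
    obtain ⟨h0, h1⟩ := hspec t ht
    simp only [hK]
    have h5 : 0 < max t (m / 2) := lt_max_of_lt_right (by positivity)
    have h6 : t * (max t (m / 2))⁻¹ ≤ 1 := by
      rw [mul_inv_le_iff₀ h5, one_mul]; exact le_max_left _ _
    have h7 : 0 ≤ t * (max t (m / 2))⁻¹ := by positivity
    rw [Real.norm_of_nonneg (by linarith)]
    linarith

end cfcC

namespace CP
section
variable {A G : Type*} [CStarAlgebra A] [PartialOrder A] [StarOrderedRing A]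
    [Group G] [Fintype G] [DecidableEq G] {α : G → (A ≃⋆ₐ[ℂ] A)}
    {B : Type*} [CStarAlgebra B] [PartialOrder B] [StarOrderedRing B] (cp : CP α B)

lemma continuous_ι : Continuous cp.ι := by
  have : LipschitzWith 1 cp.ι := by
    apply LipschitzWith.of_dist_le_mul
    intro a b
    rw [dist_eq_norm, dist_eq_norm, ← map_sub]
    simpa using cp.norm_ι_le (a - b)
  exact this.continuous

lemma exists_unit_ne (hsimple : ∀ I : TwoSidedIdeal A, IsClosed (I : Set A) → (∀ x ∈ I, x = 0) ∨ (1 : A) ∈ I)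
    (hd : Dense {b : A | IsUnit b}) (x : B) (hx : x ≠ 0) (c : A) (hc : c ≠ 0) :
    ∃ s : A, IsUnit s ∧ x * cp.ι s * cp.ι c ≠ 0 := by
  by_contra hcon
  push Not at hcon
  have hιc := cp.continuous_ι
  have hall : ∀ a : A, x * cp.ι a * cp.ι c = 0 := by
    have hcl : IsClosed {a : A | x * cp.ι a * cp.ι c = 0} :=
      isClosed_eq (by fun_prop) continuous_const
    have hsub : {b : A | IsUnit b} ⊆ {a : A | x * cp.ι a * cp.ι c = 0} := fun s hs => hcon s hs
    have : Set.univ ⊆ {a : A | x * cp.ι a * cp.ι c = 0} := by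
      rw [← hd.closure_eq]
      exact closure_minimal hsub hcl
    exact fun a => this (Set.mem_univ a)
  let I : TwoSidedIdeal A := TwoSidedIdeal.mk' {a : A | ∀ s : A, x * cp.ι (s * a) = 0}
    (by intro s; simp)
    (by
      intro a b ha hb s
      rw [mul_add, map_add, mul_add, ha s, hb s, add_zero])
    (by
      intro a ha s
      rw [mul_neg, map_neg, mul_neg, ha s, neg_zero])
    (by
      intro a b hb s
      rw [← mul_assoc]; exact hb (s * a))
    (by
      intro a b ha s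
      rw [← mul_assoc, map_mul, ← mul_assoc, ha s, zero_mul])
  have hmem : ∀ a : A, a ∈ I ↔ ∀ s : A, x * cp.ι (s * a) = 0 := by
    intro a
    exact TwoSidedIdeal.mem_mk' _ _ _ _ _ _ a
  have hclosed : IsClosed (I : Set A) := by
    have : (I : Set A) = ⋂ s : A, {a : A | x * cp.ι (s * a) = 0} := by
      ext a
      simp only [SetLike.mem_coe, hmem, Set.mem_iInter, Set.mem_ofPred_eq]
    rw [this]
    apply isClosed_iInter
    intro s
    exact isClosed_eq (by fun_prop) continuous_const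
  rcases hsimple I hclosed with h | h
  · apply hc
    apply h c
    rw [hmem]
    intro s
    rw [map_mul, ← mul_assoc]; exact hall s
  · rw [hmem] at h
    have := h 1
    rw [mul_one, map_one, mul_one] at this
    exact hx this

include cp in
theorem all_LU (hα1 : ∀ a : A, α 1 a = a)
    (hαm : ∀ (g h : G) (a : A), α (g * h) a = α g (α h a))
    (hsimple : ∀ I : TwoSidedIdeal A, IsClosed (I : Set A) → (∀ x ∈ I, x = 0) ∨ (1 : A) ∈ I)
    (hd : Dense {b : A | IsUnit b})
    (hsr : Dense {b : CStarMatrix G G A | IsUnit b}) (hW : WTRP α)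
    (hfin : ∀ x y : B, x * y = 1 → y * x = 1) (b : B) : LU b := by
  by_cases hb : IsUnit b
  · exact LU_of_isUnit hb
  have h1 : ¬ IsUnit (star b * b) := by
    rintro ⟨v, hv⟩
    apply hb
    have hl : (↑v⁻¹ * star b) * b = 1 := by rw [mul_assoc, ← hv, v.inv_mul]
    exact ⟨⟨b, ↑v⁻¹ * star b, hfin _ _ hl, hl⟩, rfl⟩
  have h2 : ¬ IsUnit (b * star b) := by
    rintro ⟨v, hv⟩
    apply hb
    have hl : b * (star b * ↑v⁻¹) = 1 := by rw [← mul_assoc, ← hv, v.mul_inv]
    exact ⟨⟨b, star b * ↑v⁻¹, hl, hfin _ _ hl⟩, rfl⟩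
  apply LU_of_near
  intro ε hε
  obtain ⟨b', x, y, hbb', hx0, hy0, hxne, hyne, hbx, hyb⟩ := exists_zero_divisors b h1 h2 hε
  refine ⟨b', ?_, hbb'⟩
  -- right side
  have hEx : cp.co x 1 * 1 ≠ 0 := by rw [mul_one]; exact cp.E_ne_zero hx0 hxne
  obtain ⟨V, c, -, w, hVu, hc0, hcne, -, hVc⟩ := cp.place hα1 hW x hx0 1 (star_one _)
    norm_one_le hEx
  -- left side
  obtain ⟨s, hsu, hsne⟩ := cp.exists_unit_ne hsimple hd y hyne c hcne
  obtain ⟨s, rfl⟩ := hsu
  set y' : B := cp.ι (star (s : A)) * y * cp.ι s with hy'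
  have hcs : star c = c := hc0.isSelfAdjoint
  have hy'0 : 0 ≤ y' := by
    rw [hy', map_star]; exact star_left_conjugate_nonneg hy0 _
  have hιsu : IsUnit (cp.ι (star (s : A))) := (s.isUnit.star).map cp.ι
  have hy'c : y' * cp.ι c ≠ 0 := by
    rw [hy']
    intro h
    apply hsne
    obtain ⟨t, ht⟩ := hιsu
    rw [← ht] at h
    calc y * cp.ι s * cp.ι c = ↑t⁻¹ * (↑t * y * cp.ι s * cp.ι c) := by
          simp only [← mul_assoc, t.inv_mul, one_mul]
      _ = 0 := by rw [h, mul_zero]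
  -- normalise c
  set c₁ : A := ‖c‖⁻¹ • c with hc₁
  have hcn : 0 < ‖c‖ := norm_pos_iff.2 hcne
  have hc₁s : star c₁ = c₁ := by rw [hc₁, star_smul, hcs, star_trivial]
  have hc₁n : ‖c₁‖ ≤ 1 := by
    rw [hc₁, norm_smul, norm_inv, norm_norm, inv_mul_cancel₀ hcn.ne']
  have hEy : cp.co y' 1 * c₁ ≠ 0 := by
    intro h
    have h3 : cp.co y' 1 * c = 0 := by
      have : c = ‖c‖ • c₁ := by rw [hc₁, smul_smul, mul_inv_cancel₀ hcn.ne', one_smul]
      rw [this, mul_smul_comm, h, smul_zero]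
    have h4 : cp.ι c * y' * cp.ι c ≠ 0 := by
      intro h5
      apply hy'c
      apply mul_eq_zero_of_conj hy'0
      rw [← map_star, hcs]; exact h5
    have h6 : 0 ≤ cp.ι c * y' * cp.ι c := by
      have := star_left_conjugate_nonneg hy'0 (cp.ι c)
      rwa [← map_star, hcs] at this
    apply cp.E_ne_zero h6 h4
    rw [cp.co_bimod]
    simp only [hα1]
    rw [mul_assoc, h3, mul_zero]
  obtain ⟨U, c₂, c₂', w₂, hUu, hc₂0, hc₂ne, hc₂c, hUc⟩ := cp.place hα1 hW y' hy'0 c₁ hc₁s hc₁n hEy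
  have hc₂s : star c₂ = c₂ := hc₂0.isSelfAdjoint
  obtain ⟨c', r, k, hc's, hrs, hcr, hrc, hr1, hc'1, hc'k, hc'k'⟩ := exists_pair c₂ hc₂0 hc₂ne
  -- b₅
  set b₅ : B := (star U * cp.ι (↑s⁻¹ : A)) * b' * V with hb₅
  have hιss : cp.ι (s : A) * cp.ι (↑s⁻¹ : A) = 1 := by rw [← map_mul, s.mul_inv, map_one]
  have hb'Vc : b' * V * cp.ι c = 0 := by
    rw [mul_assoc, hVc, ← mul_assoc, hbx, zero_mul]
  have hb₅c₂ : b₅ * cp.ι c₂ = 0 := by
    have : cp.ι c₂ = cp.ι c * (‖c‖⁻¹ • cp.ι c₂') := by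
      rw [hc₂c, map_mul, hc₁, cp.ι_rsmul, smul_mul_assoc, mul_smul_comm]
    rw [this, hb₅]
    calc _ = (star U * cp.ι (↑s⁻¹ : A)) * (b' * V * cp.ι c) * (‖c‖⁻¹ • cp.ι c₂') := by
          simp only [mul_assoc]
      _ = 0 := by rw [hb'Vc, mul_zero, zero_mul]
  have hc₂b₅ : cp.ι c₂ * b₅ = 0 := by
    have h7 : cp.ι c₂ * star U = star w₂ * y' := by
      have := congrArg star hUc
      rw [star_mul, star_mul, ← map_star, hc₂s, (hy'0.isSelfAdjoint : star y' = y')] at this
      exact this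
    rw [hb₅]
    calc cp.ι c₂ * (star U * cp.ι (↑s⁻¹ : A) * b' * V) =
          (cp.ι c₂ * star U) * cp.ι (↑s⁻¹ : A) * b' * V := by simp only [mul_assoc]
      _ = star w₂ * (cp.ι (star (s : A)) * y * (cp.ι (s : A) * cp.ι (↑s⁻¹ : A)) * b') * V := by
          rw [h7, hy']; simp only [mul_assoc]
      _ = star w₂ * (cp.ι (star (s : A)) * (y * b')) * V := by
          rw [hιss, mul_one]; simp only [mul_assoc]
      _ = 0 := by rw [hyb, mul_zero, mul_zero, zero_mul]
  have hb₅LU : LU b₅ := by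
    refine cp.stepC hα1 hαm hsr hW b₅ c' r hc's hrs hcr hrc hr1 hc'1 ?_ ?_
    · rw [hc'k, map_mul, ← mul_assoc, hb₅c₂, zero_mul]
    · rw [hc'k', map_mul, mul_assoc, hc₂b₅, mul_zero]
  refine LU_of_mul (u := star U * cp.ι (↑s⁻¹ : A)) (v := V) (hUu.star.mul ?_) hVu hb₅LU
  exact (s⁻¹).isUnit.map cp.ι

end
end CP

end Pool.Agent.MP_739d9d_an
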