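import Mathlib
import Pool.Agent.MP_739d9d_an.Main

set_option autoImplicit false
set_option linter.unusedSectionVars false

open Filter Topology

namespace Pool.Agent.MP_739d9d_an

lemma corner {B : Type*} [CStarAlgebra B] (p : B) (hp : p * p = p) (hpn : ‖p‖ ≤ 1) (x : B)
    (hx : p * x * p = x) (h : LU (x + (1 - p))) {ε : ℝ} (hε : 0 < ε) :
    ∃ S S' : B, p * S * p = S ∧ p * S' * p = S' ∧ S * S' = p ∧ S' * S = p ∧ ‖S - x‖ ≤ ε := by
  set q := 1 - p with hq
  have hqq : q * q = q := by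
    have : (1 - p) * (1 - p) = 1 - p - p + p * p := by noncomm_ring
    rw [hq, this, hp]; abel
  have hpq : p * q = 0 := by rw [hq, mul_sub, mul_one, hp, sub_self]
  have hqp : q * p = 0 := by rw [hq, sub_mul, one_mul, hp, sub_self]
  have hpq1 : p + q = 1 := by rw [hq]; abel
  have hqx : q * x = 0 := by rw [← hx, ← mul_assoc, ← mul_assoc, hqp]; simp
  have hxq : x * q = 0 := by rw [← hx, mul_assoc, hpq, mul_zero]
  have hpx : p * x = x := by rw [← hx, ← mul_assoc, ← mul_assoc, hp]
  have hxp : x * p = x := by rw [← hx, mul_assoc, hp]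
  have hqn : ‖q‖ ≤ 2 := by
    rw [hq]; exact (norm_sub_le _ _).trans (by linarith [norm_one_le (N := B)])
  set θ : ℝ := min (1 / 8) (ε / 5) with hθ
  have hθ0 : 0 < θ := by positivity
  have hθ8 : θ ≤ 1 / 8 := min_le_left _ _
  have hθε : θ ≤ ε / 5 := min_le_right _ _
  obtain ⟨w, hwu, hwn⟩ := h θ hθ0
  obtain ⟨w, rfl⟩ := hwu
  set W : B := ↑w with hW
  set W' : B := ↑w⁻¹ with hW'
  have hWW' : W * W' = 1 := w.mul_inv
  have hW'W : W' * W = 1 := w.inv_mul
  set d := W - (x + q) with hd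
  have hWd : W = x + q + d := by rw [hd]; abel
  have n2 : ∀ a b c : B, ‖a * b * c‖ ≤ ‖a‖ * ‖b‖ * ‖c‖ := fun a b c =>
    (norm_mul_le _ _).trans (by gcongr; exact norm_mul_le _ _)
  have hqdq : ‖q * d * q‖ ≤ 1 / 2 := by
    calc _ ≤ ‖q‖ * ‖d‖ * ‖q‖ := n2 _ _ _
      _ ≤ 2 * θ * 2 := by gcongr
      _ ≤ 1 / 2 := by linarith
  have hqWq : q * W * q = q + q * d * q := by
    rw [hWd, mul_add, mul_add, hqx, hqq, zero_add, add_mul, hqq]
  obtain ⟨t', ht'1, ht'2, ht'n, -⟩ := exists_inv_one_add hqdq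
  set t := 1 + q * d * q with ht
  have htW : t = q * W * q + p := by rw [hqWq, ht, ← hpq1]; abel
  have hpt : p * t = p := by
    rw [htW, mul_add, hp, ← mul_assoc, ← mul_assoc, hpq]; simp
  have htp : t * p = p := by
    rw [htW, add_mul, hp, mul_assoc, hqp]; simp
  have hpt' : p * t' = p := by
    calc p * t' = (p * t) * t' := by rw [hpt]
      _ = p := by rw [mul_assoc, ht'2, mul_one]
  have ht'p : t' * p = p := by
    calc t' * p = t' * (t * p) := by rw [htp]
      _ = p := by rw [← mul_assoc, ht'1, one_mul]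
  set T := q * t' * q with hT
  have h1 : q * W * T = q := by
    have e1 : (q * W * q + p) * t' * q = q := by rw [← htW, ht'2, one_mul]
    have e2 : (q * W * q + p) * t' * q = q * W * T + p * t' * q := by rw [hT]; noncomm_ring
    rw [e2, hpt', hpq, add_zero] at e1
    exact e1
  have h2 : T * W * q = q := by
    have e1 : q * t' * (q * W * q + p) = q := by rw [← htW, mul_assoc, ht'1, mul_one]
    have e2 : q * t' * (q * W * q + p) = T * W * q + q * (t' * p) := by rw [hT]; noncomm_ring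
    rw [e2, ht'p, hqp, add_zero] at e1
    exact e1
  have hTq : T * q = T := by rw [hT, mul_assoc, hqq]
  have hqT : q * T = T := by rw [hT, ← mul_assoc, ← mul_assoc, hqq]
  have hTn : ‖T‖ ≤ 8 := by
    calc ‖T‖ ≤ ‖q‖ * ‖t'‖ * ‖q‖ := n2 _ _ _
      _ ≤ 2 * 2 * 2 := by gcongr
      _ = 8 := by norm_num
  refine ⟨p * W * p - p * W * T * W * p, p * W' * p, ?_, ?_, ?_, ?_, ?_⟩
  · calc p * (p * W * p - p * W * T * W * p) * p
        = (p * p) * W * (p * p) - (p * p) * W * T * W * (p * p) := by noncomm_ring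
      _ = _ := by rw [hp]
  · calc p * (p * W' * p) * p = (p * p) * W' * (p * p) := by noncomm_ring
      _ = _ := by rw [hp]
  · -- S S' = p
    have a1 : p * W * p * (p * W' * p) = p - p * W * q * W' * p := by
      calc p * W * p * (p * W' * p) = p * W * (p * p) * W' * p := by noncomm_ring
        _ = p * W * (1 - q) * W' * p := by rw [hp, hq, sub_sub_cancel]
        _ = p * (W * W') * p - p * W * q * W' * p := by noncomm_ring
        _ = _ := by rw [hWW', mul_one, hp]
    have a2 : T * W * p * W' * p = - (q * W' * p) := by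
      calc T * W * p * W' * p = T * W * (1 - q) * W' * p := by rw [hq, sub_sub_cancel]
        _ = T * (W * W') * p - T * W * q * W' * p := by noncomm_ring
        _ = T * q * p - q * W' * p := by rw [hWW', mul_one, h2, hTq]
        _ = _ := by rw [mul_assoc T, hqp]; simp
    calc (p * W * p - p * W * T * W * p) * (p * W' * p)
        = p * W * p * (p * W' * p) - p * W * (T * W * (p * p) * W' * p) := by noncomm_ring
      _ = (p - p * W * q * W' * p) - p * W * (T * W * p * W' * p) := by rw [a1, hp]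
      _ = (p - p * W * q * W' * p) - p * W * (-(q * W' * p)) := by rw [a2]
      _ = p := by noncomm_ring
  · have a1 : p * W' * p * (p * W * p) = p - p * W' * q * W * p := by
      calc p * W' * p * (p * W * p) = p * W' * (p * p) * W * p := by noncomm_ring
        _ = p * W' * (1 - q) * W * p := by rw [hp, hq, sub_sub_cancel]
        _ = p * (W' * W) * p - p * W' * q * W * p := by noncomm_ring
        _ = _ := by rw [hW'W, mul_one, hp]
    have a2 : p * W' * p * W * T = - (p * W' * q) := by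
      calc p * W' * p * W * T = p * W' * (1 - q) * W * T := by rw [hq, sub_sub_cancel]
        _ = p * (W' * W) * T - p * W' * (q * W * T) := by noncomm_ring
        _ = p * (q * T) - p * W' * q := by rw [hW'W, mul_one, h1, hqT]
        _ = _ := by rw [← mul_assoc, hpq]; simp
    calc p * W' * p * (p * W * p - p * W * T * W * p)
        = p * W' * p * (p * W * p) - (p * W' * (p * p) * W * T) * W * p := by noncomm_ring
      _ = (p - p * W' * q * W * p) - (p * W' * p * W * T) * W * p := by rw [a1, hp]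
      _ = (p - p * W' * q * W * p) - (-(p * W' * q)) * W * p := by rw [a2]
      _ = p := by noncomm_ring
  · have b1 : p * W * p - x = p * d * p := by
      have : p * W * p = p * x * p + p * q * p + p * d * p := by rw [hWd]; noncomm_ring
      rw [this, hx, hpq]; simp
    have b2 : p * W * q = p * d * q := by
      have : p * W * q = p * (x * q) + p * (q * q) + p * d * q := by rw [hWd]; noncomm_ring
      rw [this, hxq, hqq, hpq]; simp
    have b3 : q * W * p = q * d * p := by
      have : q * W * p = (q * x) * p + (q * q) * p + q * d * p := by rw [hWd]; noncomm_ring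
      rw [this, hqx, hqq, hqp]; simp
    have b4 : p * W * T * W * p = (p * d * q) * T * (q * d * p) := by
      rw [← b2, ← b3]
      calc p * W * T * W * p = p * W * (q * T * q) * W * p := by rw [hqT, hTq]
        _ = _ := by noncomm_ring
    have e : p * W * p - p * W * T * W * p - x = p * d * p - (p * d * q) * T * (q * d * p) := by
      rw [← b4, ← b1]; abel
    rw [e]
    have c1 : ‖p * d * p‖ ≤ 1 * θ * 1 := (n2 _ _ _).trans (by gcongr)
    have c2 : ‖p * d * q‖ ≤ 1 * θ * 2 := (n2 _ _ _).trans (by gcongr)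
    have c3 : ‖q * d * p‖ ≤ 2 * θ * 1 := (n2 _ _ _).trans (by gcongr)
    calc _ ≤ ‖p * d * p‖ + ‖(p * d * q) * T * (q * d * p)‖ := norm_sub_le _ _
      _ ≤ 1 * θ * 1 + (1 * θ * 2) * 8 * (2 * θ * 1) := by
          gcongr
          exact (n2 _ _ _).trans (by gcongr)
      _ ≤ ε := by nlinarith

/-- dense units imply finiteness. -/
lemma finite_of_dense {N : Type*} [CStarAlgebra N] (hd : Dense {b : N | IsUnit b}) (x y : N)
    (h : x * y = 1) : y * x = 1 := by
  have hpos : 0 < ‖y‖ + 1 := by positivity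
  obtain ⟨w, hw, hwu⟩ := Metric.dense_iff.1 hd x (1 / (‖y‖ + 1)) (by positivity)
  have hwu : IsUnit w := hwu
  obtain ⟨w, rfl⟩ := hwu
  have hw : ‖(w : N) - x‖ < 1 / (‖y‖ + 1) := by rw [← dist_eq_norm]; exact hw
  have h1 : (w : N) * y = 1 + ((w : N) - x) * y := by rw [sub_mul, h]; abel
  have h2 : IsUnit ((w : N) * y) := by
    rw [h1]
    apply isUnit_one_add_of_norm_lt
    calc _ ≤ ‖(w : N) - x‖ * ‖y‖ := norm_mul_le _ _
      _ ≤ 1 / (‖y‖ + 1) * ‖y‖ := by gcongr
      _ = ‖y‖ / (‖y‖ + 1) := by ring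
      _ < 1 := by rw [div_lt_one hpos]; linarith
  have h3 : IsUnit y := by
    have : y = ↑w⁻¹ * (↑w * y) := by rw [← mul_assoc, w.inv_mul, one_mul]
    rw [this]; exact w⁻¹.isUnit.mul h2
  obtain ⟨v, rfl⟩ := h3
  have : x = ↑v⁻¹ := by
    calc x = x * (↑v * ↑v⁻¹) := by rw [v.mul_inv, mul_one]
      _ = ↑v⁻¹ := by rw [← mul_assoc, h, one_mul]
  rw [this, v.mul_inv]

namespace CP
section
variable {A G : Type*} [CStarAlgebra A] [PartialOrder A] [StarOrderedRing A]
    [Group G] [Fintype G] [DecidableEq G] {α : G → (A ≃⋆ₐ[ℂ] A)}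
    {B : Type*} [CStarAlgebra B] (cp : CP α B)

/-- averaging projection -/
noncomputable def avg : B := ((Fintype.card G : ℝ)⁻¹) • ∑ g, cp.u g

lemma card_ne : (Fintype.card G : ℝ) ≠ 0 := by
  have : Fintype.card G ≠ 0 := Fintype.card_ne_zero
  exact_mod_cast this

lemma u_avg (g : G) : cp.u g * cp.avg = cp.avg := by
  unfold avg
  rw [mul_smul_comm, Finset.mul_sum]
  congr 1
  exact Fintype.sum_equiv (Equiv.mulLeft g) _ _ fun h => by simp [cp.u_mul]

lemma avg_avg : cp.avg * cp.avg = cp.avg := by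
  have : cp.avg * cp.avg = ((Fintype.card G : ℝ)⁻¹) • ∑ g, cp.u g * cp.avg := by
    conv_lhs => rw [avg]
    rw [smul_mul_assoc, Finset.sum_mul]
    rfl
  rw [this]
  simp_rw [cp.u_avg]
  rw [Finset.sum_const, Finset.card_univ, ← Nat.cast_smul_eq_nsmul ℝ, smul_smul,
    inv_mul_cancel₀ card_ne, one_smul]

lemma norm_avg_le : ‖cp.avg‖ ≤ 1 := by
  unfold avg
  rw [norm_smul, norm_inv, Real.norm_of_nonneg (Nat.cast_nonneg _)]
  have h : ‖∑ g, cp.u g‖ ≤ Fintype.card G := by
    refine (norm_sum_le _ _).trans ?_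
    calc ∑ g : G, ‖cp.u g‖ ≤ ∑ g : G, (1 : ℝ) := by
          gcongr with g _; exact cp.norm_u_le g
      _ = _ := by simp
  calc _ ≤ (Fintype.card G : ℝ)⁻¹ * Fintype.card G := by gcongr
    _ = 1 := inv_mul_cancel₀ card_ne

/-- the compression of `b` to the fixed point algebra. -/
noncomputable def theta (b : B) : A := ((Fintype.card G : ℝ)⁻¹) • ∑ h, α h (∑ g, cp.co b g)

lemma theta_fixed (hαm : ∀ (g h : G) (a : A), α (g * h) a = α g (α h a)) (b : B) (g : G) :
    α g (cp.theta b) = cp.theta b := by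
  unfold theta
  rw [← Complex.coe_smul, map_smul, map_sum]
  congr 1
  refine Fintype.sum_equiv (Equiv.mulLeft g) _ _ fun h => ?_
  simp [hαm]

lemma avg_mul_avg (b : B) : cp.avg * b * cp.avg = cp.ι (cp.theta b) * cp.avg := by
  have h1 : b * cp.avg = cp.ι (∑ g, cp.co b g) * cp.avg := by
    conv_lhs => rw [← cp.co_spec b]
    rw [Finset.sum_mul, map_sum, Finset.sum_mul]
    refine Finset.sum_congr rfl fun g _ => ?_
    rw [mul_assoc, cp.u_avg]
  rw [mul_assoc, h1]
  set a := ∑ g, cp.co b g with ha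
  have h2 : cp.avg * cp.ι a = ((Fintype.card G : ℝ)⁻¹) • ∑ h, cp.ι (α h a) * cp.u h := by
    unfold avg
    rw [smul_mul_assoc, Finset.sum_mul]
    congr 1
    exact Finset.sum_congr rfl fun g _ => cp.u_comm g a
  rw [← mul_assoc, h2, smul_mul_assoc, Finset.sum_mul]
  have h3 : ∀ h, cp.ι (α h a) * cp.u h * cp.avg = cp.ι (α h a) * cp.avg := fun h => by
    rw [mul_assoc, cp.u_avg]
  simp_rw [h3]
  rw [← Finset.sum_mul, ← map_sum, ← smul_mul_assoc, ← cp.ι_rsmul]
  rfl

lemma co_ι_avg (a : A) : cp.co (cp.ι a * cp.avg) 1 = ((Fintype.card G : ℝ)⁻¹) • a := by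
  have : cp.co (cp.ι a * cp.avg) = fun _ => ((Fintype.card G : ℝ)⁻¹) • a := by
    rw [← cp.co_uniq (fun _ => ((Fintype.card G : ℝ)⁻¹) • a)]
    congr 1
    unfold avg
    rw [mul_smul_comm, Finset.mul_sum, Finset.smul_sum]
    refine Finset.sum_congr rfl fun g _ => ?_
    rw [cp.ι_rsmul, smul_mul_assoc]
  rw [this]

lemma ι_avg_inj {a b : A} (h : cp.ι a * cp.avg = cp.ι b * cp.avg) : a = b := by
  have := congrArg (fun x => cp.co x 1) h
  simp only [co_ι_avg] at this
  have h2 := congrArg (fun x => (Fintype.card G : ℝ) • x) this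
  simpa only [smul_smul, mul_inv_cancel₀ (card_ne (G := G)), one_smul] using h2

theorem fixed_LU (hαm : ∀ (g h : G) (a : A), α (g * h) a = α g (α h a))
    (hco : ∀ b : B, ‖cp.co b 1‖ ≤ ‖b‖) (hLU : ∀ b : B, LU b) (a : A) (ha : ∀ g, α g a = a)
    {ε : ℝ} (hε : 0 < ε) :
    ∃ b c : A, (∀ g, α g b = b) ∧ (∀ g, α g c = c) ∧ b * c = 1 ∧ c * b = 1 ∧ ‖a - b‖ < ε := by
  have hcomm : cp.ι a * cp.avg = cp.avg * cp.ι a := by
    unfold avg
    rw [mul_smul_comm, smul_mul_assoc, Finset.mul_sum, Finset.sum_mul]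
    congr 1
    refine Finset.sum_congr rfl fun g _ => ?_
    rw [cp.u_comm, ha]
  set n : ℝ := (Fintype.card G : ℝ) with hn
  have hn0 : 0 < n := by
    rw [hn]; exact_mod_cast Fintype.card_pos
  obtain ⟨S, S', hS, hS', hSS', hS'S, hSn⟩ := corner cp.avg cp.avg_avg cp.norm_avg_le
    (cp.ι a * cp.avg) (by
      rw [hcomm]
      calc cp.avg * (cp.avg * cp.ι a) * cp.avg = (cp.avg * cp.avg) * (cp.ι a * cp.avg) := by
            simp only [mul_assoc]
        _ = cp.avg * cp.avg * cp.ι a := by rw [hcomm, cp.avg_avg, ← mul_assoc, cp.avg_avg]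
        _ = _ := by rw [cp.avg_avg]) (hLU _) (ε := ε / (2 * n)) (by positivity)
  have e1 : cp.ι (cp.theta S) * cp.avg = S := by rw [← cp.avg_mul_avg, hS]
  have e2 : cp.ι (cp.theta S') * cp.avg = S' := by rw [← cp.avg_mul_avg, hS']
  have fixc : ∀ b : A, (∀ g, α g b = b) → cp.avg * cp.ι b = cp.ι b * cp.avg := by
    intro b hb
    unfold avg
    rw [mul_smul_comm, smul_mul_assoc, Finset.mul_sum, Finset.sum_mul]
    congr 1
    refine Finset.sum_congr rfl fun g _ => ?_
    rw [cp.u_comm, hb]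
  have hf := cp.theta_fixed hαm
  refine ⟨cp.theta S, cp.theta S', hf S, hf S', ?_, ?_, ?_⟩
  · apply cp.ι_avg_inj
    rw [map_one, one_mul, map_mul]
    calc cp.ι (cp.theta S) * cp.ι (cp.theta S') * cp.avg
        = cp.ι (cp.theta S) * (cp.ι (cp.theta S') * (cp.avg * cp.avg)) := by
          rw [cp.avg_avg, mul_assoc]
      _ = cp.ι (cp.theta S) * cp.avg * (cp.ι (cp.theta S') * cp.avg) := by
          rw [← mul_assoc (cp.ι (cp.theta S')), ← fixc _ (hf S')]
          simp only [mul_assoc]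
          rw [fixc _ (hf S')]
      _ = cp.avg := by rw [e1, e2, hSS']
  · apply cp.ι_avg_inj
    rw [map_one, one_mul, map_mul]
    calc cp.ι (cp.theta S') * cp.ι (cp.theta S) * cp.avg
        = cp.ι (cp.theta S') * (cp.ι (cp.theta S) * (cp.avg * cp.avg)) := by
          rw [cp.avg_avg, mul_assoc]
      _ = cp.ι (cp.theta S') * cp.avg * (cp.ι (cp.theta S) * cp.avg) := by
          rw [← mul_assoc (cp.ι (cp.theta S)), ← fixc _ (hf S)]
          simp only [mul_assoc]
          rw [fixc _ (hf S)]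
      _ = cp.avg := by rw [e1, e2, hS'S]
  · have h3 : n⁻¹ • (a - cp.theta S) = -(cp.co (S - cp.ι a * cp.avg) 1) := by
      have h4 : S - cp.ι a * cp.avg = cp.ι (cp.theta S - a) * cp.avg := by
        rw [map_sub, sub_mul, e1]
      rw [h4, co_ι_avg, ← smul_neg, neg_sub]
    have h5 : ‖n⁻¹ • (a - cp.theta S)‖ ≤ ε / (2 * n) := by
      rw [h3, norm_neg]; exact (hco _).trans hSn
    rw [norm_smul, norm_inv, Real.norm_of_nonneg hn0.le, inv_mul_le_iff₀ hn0] at h5
    calc ‖a - cp.theta S‖ ≤ n * (ε / (2 * n)) := h5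
      _ = ε / 2 := by field_simp
      _ < ε := by linarith

end
end CP

end Pool.Agent.MP_739d9d_an
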