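import Mathlib
import Pool.Agent.MP_739d9d_an.Corner

set_option autoImplicit false
set_option linter.unusedSectionVars false

open Filter Topology

namespace Pool.Agent.MP_739d9d_an

section
variable {A G : Type*} [CStarAlgebra A] [PartialOrder A] [StarOrderedRing A]
    [Group G] [Fintype G] [DecidableEq G] (α : G → (A ≃⋆ₐ[ℂ] A))
    (hα1 : ∀ a : A, α 1 a = a) (hαm : ∀ (g h : G) (a : A), α (g * h) a = α g (α h a))

/-- covariant matrices -/
def IsCov (M : CStarMatrix G G A) : Prop := ∃ c : G → A, ∀ h g, M h g = α h⁻¹ (c (h * g⁻¹))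

include hα1 hαm in
lemma isCov_mul {M N : CStarMatrix G G A} (hM : IsCov α M) (hN : IsCov α N) : IsCov α (M * N) := by
  obtain ⟨c, hc⟩ := hM
  obtain ⟨d, hd⟩ := hN
  refine ⟨fun x => ∑ y, c y * α y (d (y⁻¹ * x)), fun h g => ?_⟩
  rw [CStarMatrix.mul_apply, map_sum]
  refine Fintype.sum_equiv ((Equiv.inv G).trans (Equiv.mulLeft h)) _ _ fun k => ?_
  simp only [Equiv.trans_apply, Equiv.inv_apply, Equiv.coe_mulLeft]
  rw [hc, hd, map_mul, ← hαm]
  congr 2
  · group
  · congr 1
    group

include hα1 hαm in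
lemma isCov_star {M : CStarMatrix G G A} (hM : IsCov α M) : IsCov α (star M) := by
  obtain ⟨c, hc⟩ := hM
  refine ⟨fun x => α x (star (c x⁻¹)), fun h g => ?_⟩
  rw [CStarMatrix.star_apply, hc, ← hαm, map_star]
  congr 2
  · congr 1; group
  · congr 1; group

include hα1 hαm in
lemma isCov_algebraMap (r : ℂ) : IsCov α (algebraMap ℂ (CStarMatrix G G A) r) := by
  refine ⟨fun x => if x = 1 then algebraMap ℂ A r else 0, fun h g => ?_⟩
  rw [CStarMatrix.algebraMap_apply]
  by_cases hg : h = g
  · subst hg
    simp [Algebra.algebraMap_eq_smul_one]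
  · have : ¬ (h * g⁻¹ = 1) := by rwa [mul_inv_eq_one]
    simp [hg, this]

lemma isCov_add {M N : CStarMatrix G G A} (hM : IsCov α M) (hN : IsCov α N) : IsCov α (M + N) := by
  obtain ⟨c, hc⟩ := hM
  obtain ⟨d, hd⟩ := hN
  exact ⟨fun x => c x + d x, fun h g => by rw [CStarMatrix.add_apply, hc, hd, map_add]⟩

include hα1 in
lemma isCov_iff (M : CStarMatrix G G A) :
    IsCov α M ↔ ∀ h g, M h g = α h⁻¹ (M 1 (h * g⁻¹)⁻¹) := by
  constructor
  · rintro ⟨c, hc⟩ h g
    rw [hc 1, hc h]
    simp [hα1]
  · intro h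
    exact ⟨fun x => M 1 x⁻¹, fun h' g => h h' g⟩

/-- The crossed product as a star subalgebra of matrices. -/
noncomputable def cov : StarSubalgebra ℂ (CStarMatrix G G A) where
  carrier := {M | IsCov α M}
  mul_mem' := fun ha hb => isCov_mul α hα1 hαm ha hb
  add_mem' := fun ha hb => isCov_add α ha hb
  algebraMap_mem' := fun r => isCov_algebraMap α hα1 hαm r
  star_mem' := fun ha => isCov_star α hα1 hαm ha

lemma mem_cov (M : CStarMatrix G G A) : M ∈ cov α hα1 hαm ↔ IsCov α M := Iff.rfl

lemma continuous_alpha (g : G) : Continuous (α g) := by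
  have : LipschitzWith 1 (α g) := by
    apply LipschitzWith.of_dist_le_mul
    intro a b
    rw [dist_eq_norm, dist_eq_norm, ← map_sub]
    simpa using CP.alpha_norm g (a - b)
  exact this.continuous

lemma isClosed_cov : IsClosed (cov α hα1 hαm : Set (CStarMatrix G G A)) := by
  have : (cov α hα1 hαm : Set (CStarMatrix G G A)) =
      ⋂ h : G, ⋂ g : G, {M | M h g = α h⁻¹ (M 1 (h * g⁻¹)⁻¹)} := by
    ext M
    simp only [SetLike.mem_coe, mem_cov, isCov_iff α hα1, Set.mem_iInter, Set.mem_ofPred_eq]
  rw [this]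
  apply isClosed_iInter
  intro h
  apply isClosed_iInter
  intro g
  have hent : ∀ i j : G, Continuous fun M : CStarMatrix G G A => M i j := by
    intro i j
    exact (continuous_apply j).comp (continuous_apply i)
  exact isClosed_eq (hent h g) ((continuous_alpha α h⁻¹).comp (hent 1 _))

instance instClosedCov : IsClosed (cov α hα1 hαm : Set (CStarMatrix G G A)) :=
  isClosed_cov α hα1 hαm

/-- the embedding of `A` -/
noncomputable def iota0 : A →⋆ₐ[ℂ] CStarMatrix G G A where
  toFun a := CStarMatrix.ofMatrix (Matrix.diagonal fun h => α h⁻¹ a)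
  map_one' := by
    simp only [map_one]
    change (Matrix.diagonal (fun _ => (1 : A)) : Matrix G G A) = 1
    exact Matrix.diagonal_one
  map_mul' a b := by
    ext i j
    simp only [CStarMatrix.ofMatrix_apply, Matrix.diagonal_apply, CStarMatrix.mul_apply, map_mul]
    rw [Finset.sum_eq_single i]
    · by_cases h : i = j
      · subst h; simp
      · simp [h]
    · intro k _ hk
      rw [if_neg (Ne.symm hk), zero_mul]
    · intro h; exact absurd (Finset.mem_univ _) h
  map_zero' := by
    ext i j; simp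
  map_add' a b := by
    ext i j
    simp only [Matrix.diagonal_apply, CStarMatrix.ofMatrix_apply, CStarMatrix.add_apply]
    split_ifs <;> simp
  commutes' r := by
    ext i j
    simp [Matrix.diagonal_apply, CStarMatrix.algebraMap_apply, Algebra.algebraMap_eq_smul_one]
  map_star' a := by
    ext i j
    simp only [Matrix.diagonal_apply, CStarMatrix.ofMatrix_apply, CStarMatrix.star_apply]
    by_cases h : i = j
    · simp [h, map_star]
    · have h' : ¬ (j = i) := fun e => h e.symm
      simp [h, h']

lemma iota0_apply (a : A) (i j : G) : iota0 α a i j = if i = j then α i⁻¹ a else 0 := by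
  simp [iota0, Matrix.diagonal_apply]

lemma iota0_mem (a : A) : iota0 α a ∈ cov α hα1 hαm := by
  refine ⟨fun x => if x = 1 then a else 0, fun h g => ?_⟩
  rw [iota0_apply]
  by_cases hg : h = g
  · subst hg; simp
  · have : ¬ (h * g⁻¹ = 1) := by rwa [mul_inv_eq_one]
    simp [hg, this]

/-- the unitaries -/
def u0 (k : G) : CStarMatrix G G A := CStarMatrix.ofMatrix fun h g => if h * g⁻¹ = k then 1 else 0

lemma u0_apply (k i j : G) : (u0 k : CStarMatrix G G A) i j = if i * j⁻¹ = k then 1 else 0 := rfl

lemma u0_mem (k : G) : u0 k ∈ cov α hα1 hαm := by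
  refine ⟨fun x => if x = k then 1 else 0, fun h g => ?_⟩
  rw [u0_apply]
  by_cases hk : h * g⁻¹ = k
  · simp [hk]
  · simp [hk]

lemma sum_iota_u (a : G → A) (i j : G) :
    (∑ g, iota0 α (a g) * u0 g : CStarMatrix G G A) i j = α i⁻¹ (a (i * j⁻¹)) := by
  have e : (∑ g, iota0 α (a g) * u0 g : CStarMatrix G G A) i j =
      ∑ g, (iota0 α (a g) * u0 g : CStarMatrix G G A) i j := by
    change (∑ g, iota0 α (a g) * u0 g : Matrix G G A) i j = _
    rw [Matrix.sum_apply]
    rfl
  rw [e]
  have h1 : ∀ g, (iota0 α (a g) * u0 g : CStarMatrix G G A) i j =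
      if i * j⁻¹ = g then α i⁻¹ (a g) else 0 := by
    intro g
    rw [CStarMatrix.mul_apply, Finset.sum_eq_single i]
    · simp [iota0_apply, u0_apply]
    · intro k _ hk
      rw [iota0_apply, if_neg (Ne.symm hk), zero_mul]
    · intro h; exact absurd (Finset.mem_univ _) h
  simp_rw [h1]
  simp

/-- The concrete crossed product data. -/
noncomputable def cpc : CP α (cov α hα1 hαm) where
  ι := (iota0 α).codRestrict (cov α hα1 hαm) (iota0_mem α hα1 hαm)
  u k := ⟨u0 k, u0_mem α hα1 hαm k⟩
  u_one := by
    apply Subtype.ext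
    ext i j
    change (u0 1 : CStarMatrix G G A) i j = (1 : CStarMatrix G G A) i j
    rw [u0_apply]
    have : (1 : CStarMatrix G G A) i j = if i = j then 1 else 0 := by
      change (1 : Matrix G G A) i j = _
      rw [Matrix.one_apply]
    rw [this]
    simp only [mul_inv_eq_one]
  u_mul g h := by
    apply Subtype.ext
    ext i j
    change ((u0 g * u0 h : CStarMatrix G G A)) i j = (u0 (g * h) : CStarMatrix G G A) i j
    rw [CStarMatrix.mul_apply]
    simp only [u0_apply]
    rw [Finset.sum_eq_single (g⁻¹ * i)]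
    · have h1 : i * (g⁻¹ * i)⁻¹ = g := by group
      rw [if_pos h1, one_mul]
      have h2 : g⁻¹ * i * j⁻¹ = h ↔ i * j⁻¹ = g * h := by
        rw [mul_assoc, inv_mul_eq_iff_eq_mul]
      simp only [h2]
    · intro k _ hk
      have : ¬ (i * k⁻¹ = g) := by
        intro h1
        apply hk
        rw [← h1]; group
      rw [if_neg this, zero_mul]
    · intro h; exact absurd (Finset.mem_univ _) h
  u_star g := by
    apply Subtype.ext
    ext i j
    change (star (u0 g) : CStarMatrix G G A) i j = (u0 g⁻¹ : CStarMatrix G G A) i j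
    rw [CStarMatrix.star_apply, u0_apply, u0_apply]
    have h2 : j * i⁻¹ = g ↔ i * j⁻¹ = g⁻¹ := by
      constructor
      · rintro rfl; group
      · intro h
        have := congrArg (·⁻¹) h
        simpa using this
    simp only [h2]
    split_ifs <;> simp
  u_comm g a := by
    apply Subtype.ext
    ext i j
    change (u0 g * iota0 α a : CStarMatrix G G A) i j =
      (iota0 α (α g a) * u0 g : CStarMatrix G G A) i j
    rw [CStarMatrix.mul_apply, CStarMatrix.mul_apply]
    simp only [iota0_apply, u0_apply]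
    simp only [mul_ite, ite_mul, mul_zero, zero_mul, one_mul, mul_one]
    rw [Finset.sum_eq_single j, Finset.sum_eq_single i]
    · simp only [if_true]
      split_ifs with h1
      · rw [← hαm, ← h1]; congr 2; group
      · rfl
    · intro k _ hk
      simp [Ne.symm hk]
    · intro h; exact absurd (Finset.mem_univ _) h
    · intro k _ hk
      simp [hk]
    · intro h; exact absurd (Finset.mem_univ _) h
  co b := fun x => (b : CStarMatrix G G A) 1 x⁻¹
  co_spec b := by
    apply Subtype.ext
    have h1 := (isCov_iff α hα1 (b : CStarMatrix G G A)).1 b.2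
    have e : ((∑ g, (iota0 α).codRestrict (cov α hα1 hαm) (iota0_mem α hα1 hαm)
        ((b : CStarMatrix G G A) 1 g⁻¹) * (⟨u0 g, u0_mem α hα1 hαm g⟩ : cov α hα1 hαm) :
        cov α hα1 hαm) : CStarMatrix G G A) =
        ∑ g, iota0 α ((b : CStarMatrix G G A) 1 g⁻¹) * u0 g := by
      rw [AddSubmonoidClass.coe_finsetSum]
      rfl
    rw [e]
    ext i j
    rw [sum_iota_u α (fun g => (b : CStarMatrix G G A) 1 g⁻¹)]
    exact (h1 i j).symm
  co_uniq a := by
    funext x
    have e : ((∑ g, (iota0 α).codRestrict (cov α hα1 hαm) (iota0_mem α hα1 hαm)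
        (a g) * (⟨u0 g, u0_mem α hα1 hαm g⟩ : cov α hα1 hαm) :
        cov α hα1 hαm) : CStarMatrix G G A) =
        ∑ g, iota0 α (a g) * u0 g := by
      rw [AddSubmonoidClass.coe_finsetSum]
      rfl
    refine (congrArg (fun M : CStarMatrix G G A => M 1 x⁻¹) e).trans ?_
    rw [sum_iota_u]
    simp [hα1]

end

end Pool.Agent.MP_739d9d_an
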